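import Pool.Agent.LGD.Union
import Pool.Agent.Q2E.CertV

/-!
# Descriptions of accepting computations as certificates
-/

set_option autoImplicit false

namespace Pool.Agent.LGD

open Pool.Agent.H19 Pool.Agent.H19.T Pool.Agent.PO Pool.Agent.S2L Pool.Agent.RU Pool.Agent.Q2E

/-- Descriptions of accepting computations of a sound proof checker are certificates. -/
theorem desc_cert {S : Set Fm} {V : Code} (hV : SoundChecker S V) :
    ∃ B : T → T, PolyTime B ∧ SoundCert S B ∧
      ∀ (φ : Fm) (s : ℕ), DescribedBy s (check V φ) → IsCert B φ (10 * s + 10) := by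
  classical
  obtain ⟨B', hB', hB1, hB2⟩ : ∃ B' : T → T, PolyTime B' ∧
      (∀ v, BadV V.enc (fun _ => T.leaf) v → B' v = T.leaf) ∧
        ∀ v, B' v = T.leaf → BadV V.enc (fun _ => T.leaf) v := by
    refine ⟨_, PolyTime.ifP (badV_polyDec V.enc (PolyTime.const T.leaf)) (PolyTime.const T.leaf)
      (PolyTime.const (T.node T.leaf T.leaf)), fun v hv => if_pos hv, fun v hv => ?_⟩
    by_contra h
    beta_reduce at hv
    rw [if_neg h] at hv
    simp at hv
  refine ⟨B', hB', ?_, ?_⟩
  · intro φ s y hy hall
    have hnb : ∀ z : T, z.size ≤ s → ¬ BadV V.enc (fun _ => T.leaf) (cin φ.enc s y z) :=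
      fun z hz h => hall z hz (hB1 _ h)
    have ey : ∀ z, wy (cin φ.enc s y z) = y := fun z => rfl
    have ez : ∀ z, wz (cin φ.enc s y z) = z := fun z => rfl
    have eφ : ∀ z, wφ (cin φ.enc s y z) = φ.enc := fun z => rfl
    have eS : ∀ z, ws (cin φ.enc s y z) = s := fun z => T.len_unary s
    have hs1 : (T.leaf).size ≤ s := by rw [T.size]; have := T.size_pos y; omega
    by_cases htag : y.left.left = T.leaf
    · have hnc : ∀ z : T, z.size ≤ s → ¬ BadC (fun _ => T.leaf) (cin φ.enc s y z) :=
        fun z hz h => hnb z hz (Or.inl ⟨by rw [ey]; exact htag, h⟩)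
      have h1 : y.right.size ≤ y.left.right.len := by
        by_contra hcon
        refine hnc T.leaf hs1 (Or.inl ?_)
        rw [ey]
        omega
      exfalso
      refine hnc T.leaf hs1 (Or.inr (Or.inr ⟨?_, rfl⟩))
      rw [ez, ey, T.size]
      have := T.size_pos y.right
      omega
    · have hnp : ∀ z : T, z.size ≤ s → ¬ BadP V.enc (cin φ.enc s y z) :=
        fun z hz h => hnb z hz (Or.inr ⟨by rw [ey]; exact htag, h⟩)
      have h1 : 2 * y.right.size ≤ s := by
        by_contra hcon
        refine hnp T.leaf hs1 (Or.inl ?_)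
        rw [ey, eS]
        omega
      have h2 : bn y.right ≠ 0 := by
        intro hcon
        refine hnp T.leaf hs1 (Or.inr (Or.inl ?_))
        rw [ey]
        exact hcon
      have eG : ∀ z k, GP (T.node (cin φ.enc s y z) (bl k)) =
          GP (T.node (cin φ.enc s y T.leaf) (bl k)) := fun z k => rfl
      obtain ⟨v, y', t, h3, h4⟩ := acc_sound (W := check V φ) h2
        (R := fun k => GP (T.node (cin φ.enc s y T.leaf) (bl k))) fun i hi => by
          have h3 := bl_bn_size y.right i hi.le
          have h4 := hnp (bl i) (by omega)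
          by_contra hcon
          refine h4 (Or.inr (Or.inr ⟨?_, fun h5 => hcon ?_⟩))
          · rw [ez, ey, bn_bl]
            exact hi
          · rw [ez, ey, bn_bl, eφ, WE_eq] at h5
            simp only [eG] at h5
            exact h5
      obtain ⟨t', h5⟩ := check_inv h3
      exact hV _ _ _ _ h5 h4
  · rintro φ s ⟨D, L, r, hD, hLs, ⟨hL, hok, hfin⟩, hr⟩
    have hbl := bl_size L
    refine ⟨T.node (T.node D.enc T.leaf) (bl L), ?_, fun z hz hz2 => ?_⟩
    · simp only [T.size]
      omega
    obtain ⟨v, hv⟩ : ∃ v, v = cin φ.enc (10 * s + 10)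
      (T.node (T.node D.enc T.leaf) (bl L)) z := ⟨_, rfl⟩
    rw [← hv] at hz2
    have ey : wy v = T.node (T.node D.enc T.leaf) (bl L) := by rw [hv]; rfl
    have eS : ws v = 10 * s + 10 := by rw [hv]; exact T.len_unary _
    have eφ : wφ v = φ.enc := by rw [hv]; rfl
    have hR : ∀ j < L, GP (T.node v (bl j)) = (r j).enc := by
      intro j hj
      obtain ⟨t, ht, he⟩ := hr j hj
      rw [GP, T.left_node, T.right_node, ey, T.left_node, T.left_node, bn_bl, eS,
        SIMF_thm.2.1 D _ _ t _ he (by omega), T.right_node]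
    rcases hB2 _ hz2 with ⟨h, _⟩ | ⟨_, h⟩
    · rw [ey] at h
      cases D <;> simp [Code.enc] at h
    · unfold BadP at h
      rw [ey, T.right_node, eS, bn_bl, eφ, WE_eq] at h
      rcases h with h | h | ⟨h1, h2⟩
      · omega
      · omega
      · apply h2
        have hR' : ∀ j ≤ bn (wz v), (fun k => GP (T.node v (bl k))) j = (r j).enc :=
          fun j hj => hR j (by omega)
        refine ⟨check_complete hR' fun j hj => hok j (by omega), ?_⟩
        by_cases h6 : bn (wz v) + 1 = L
        · right
          obtain ⟨x', y', s', t', a, b, h7, h8⟩ := hfin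
          have h9 : L - 1 = bn (wz v) := by omega
          rw [h9] at h7
          exact final_complete hR' (hok _ h1) h7 h8
        · exact Or.inl h6

end Pool.Agent.LGD
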