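import Pool.Agent.Q2E.CertV
import Pool.Agent.Q2E.Sigma
import Pool.Agent.S2L.MainB

/-!
# Sets in NE or E whose members assert provability

If such a set is in `Σ₂TIME(t)` then the reflection sentences of some theory are not among the
assertions with `t(m) ≤ n ^ δ`.
-/

set_option autoImplicit false

namespace Pool.Agent.LGD

open Pool.Agent.H19 Pool.Agent.H19.T Pool.Agent.PO Pool.Agent.S2L Pool.Agent.RU Pool.Agent.Q2E

/-- The class NE: a number `x` is in `A` if and only if there is a witness of size polynomial in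
`x`, that is, exponential in the length of `x`, which can be checked in time polynomial in `x`. -/
def InNE (A : Set ℕ) : Prop :=
  ∃ (W : T → T) (k : ℕ), PolyTime W ∧ ∀ x : ℕ, x ∈ A ↔
    ∃ w : T, w.size ≤ (x + 2) ^ k ∧ W (T.node (T.unary x) w) ≠ T.leaf

/-- `s = t(m)` can be decided in time polynomial in `m` and `s`. -/
def Constructible (t : ℕ → ℕ) : Prop :=
  ∃ f : T → T, PolyTime f ∧ ∀ m s : ℕ, f (T.node (T.unary m) (T.unary s)) ≠ T.leaf ↔ s = t m

/-- The class `Σ₂^p`, for sets of numbers in binary. -/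
def InSigma2P (A : Set ℕ) : Prop := ∃ k : ℕ, InSigma2Time (fun m => (m + 2) ^ k) A

/-! ### Certificates from alternating algorithms -/

/-- The parts of `v = cin φ s y z`, `y = node (node X (unary m)) (node y₁ (unary s₁))`. -/
def gX (v : T) : T := (wy v).left.left
def gm (v : T) : ℕ := (wy v).left.right.len
def gy (v : T) : T := (wy v).right.left
def gs (v : T) : ℕ := (wy v).right.right.len

section
variable (f B₀ ext : T → T)

/-- The opponent wins. -/
def Bad (v : T) : Prop := ext (gX v) ≠ wφ v ∨ gm v < (gX v).size + 3 ∨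
  f (T.node (T.unary (gm v)) (T.unary (gs v))) = T.leaf ∨ gs v < (gy v).size ∨
  ((wz v).size ≤ gs v ∧ B₀ (vin (cN (gX v) (gm v)) (gs v) (gy v) (wz v)) = T.leaf)

variable {f B₀ ext}

theorem bad_polyDec (hf : PolyTime f) (hB : PolyTime B₀) (he : PolyTime ext) :
    PolyDec (Bad f B₀ ext) := by
  have i := PolyTime.id
  have hφ : PolyTime wφ := i.left
  have hy : PolyTime wy := i.right.left.left
  have hz : PolyTime wz := i.right.left.right
  have hX : PolyTime gX := hy.left.left
  have hm : PolyNat gm := PolyNat.len hy.left.right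
  have hy1 : PolyTime gy := hy.right.left
  have hs1 : PolyNat gs := PolyNat.len hy.right.right
  have hx : PolyN (fun v => cN (gX v) (gm v)) := cN_polyN hX hm
  refine (PolyDec.eq (he.comp hX) hφ).not.or ?_
  refine ((PolyDec.le ((PolyNat.size hX).add (PolyNat.const 3)) hm).not.congr
    fun v => by rw [Nat.not_le]).or ?_
  refine (PolyDec.eq_leaf (hf.comp (hm.unary.node hs1.unary))).or ?_
  refine ((PolyDec.le (PolyNat.size hy1) hs1).not.congr fun v => by rw [Nat.not_le]).or ?_
  exact (PolyDec.le (PolyNat.size hz) hs1).and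
    (PolyDec.eq_leaf (hB.comp (hx.node ((hy1.node hz).node hs1.unary))))

end

/-- Certificates of provability from an algorithm with two quantifiers for `N`. -/
theorem cert_of {S : Set Fm} {N : Set ℕ} {t : ℕ → ℕ} {ext : T → T} (he : PolyTime ext)
    (ht : Constructible t) (hN : InSigma2Time t N)
    (hsound : ∀ x ∈ N, Provable S (decFm (ext (dN x)))) :
    ∃ B : T → T, PolyTime B ∧ SoundCert S B ∧ ∀ (φ : Fm) (X : T) (m s : ℕ), ext X = φ.enc →
      X.size + 3 ≤ m → cN X m ∈ N → X.size + 2 * m + 3 * t m + 6 ≤ s →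
      ∃ y : T, y.size ≤ s ∧ ∀ z : T, z.size ≤ s → B (cin φ.enc s y z) ≠ T.leaf := by
  classical
  obtain ⟨f, hf, hft⟩ := ht
  obtain ⟨B₀, hB₀, hBN⟩ := hN
  obtain ⟨B, hB, hB1, hB2⟩ : ∃ B : T → T, PolyTime B ∧
      (∀ v, Bad f B₀ ext v → B v = T.leaf) ∧ ∀ v, ¬ Bad f B₀ ext v → B v ≠ T.leaf := by
    refine ⟨_, PolyTime.ifP (bad_polyDec hf hB₀ he) (PolyTime.const T.leaf)
      (PolyTime.const (T.node T.leaf T.leaf)), fun v hv => if_pos hv, fun v hv => ?_⟩
    beta_reduce
    rw [if_neg hv]
    simp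
  refine ⟨B, hB, ?_, ?_⟩
  · intro φ s y hy hall
    have hnb : ∀ z : T, z.size ≤ s → ¬ Bad f B₀ ext (cin φ.enc s y z) :=
      fun z hz h => hall z hz (hB1 _ h)
    have hs1 : (T.leaf).size ≤ s := by rw [T.size]; have := T.size_pos y; omega
    have h0 := hnb T.leaf hs1
    have eX : ∀ z, gX (cin φ.enc s y z) = y.left.left := fun z => rfl
    have em : ∀ z, gm (cin φ.enc s y z) = y.left.right.len := fun z => rfl
    have ey : ∀ z, gy (cin φ.enc s y z) = y.right.left := fun z => rfl
    have es : ∀ z, gs (cin φ.enc s y z) = y.right.right.len := fun z => rfl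
    have ez : ∀ z, wz (cin φ.enc s y z) = z := fun z => rfl
    have eφ : ∀ z, wφ (cin φ.enc s y z) = φ.enc := fun z => rfl
    unfold Bad at h0
    rw [eX, em, ey, es, eφ] at h0
    push Not at h0
    obtain ⟨h1, h2, h3, h4, -⟩ := h0
    have h5 : y.right.right.len = t y.left.right.len := (hft _ _).1 h3
    have h6 : (cN y.left.left y.left.right.len).size = y.left.right.len := cN_size (by omega)
    have hmem : cN y.left.left y.left.right.len ∈ N := by
      refine (hBN _ y.right.right.len (by rw [h6]; exact h5)).2 ⟨y.right.left, h4, fun z hz => ?_⟩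
      have h7 : z.size ≤ s := by
        have h8 := T.len_lt_size y.right.right
        have h9 := T.size_right_le y.right
        have h10 := T.size_right_le y
        omega
      intro h8
      refine hnb z h7 (Or.inr (Or.inr (Or.inr (Or.inr ⟨?_, ?_⟩))))
      · rw [ez, es]
        exact hz
      · rw [eX, em, ey, es, ez]
        exact h8
    have h9 := hsound _ hmem
    rw [dN_cN (by omega), h1, decFm_enc] at h9
    exact h9
  · intro φ X m s hX hm hmem hs
    have h6 : (cN X m).size = m := cN_size (by omega)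
    obtain ⟨y₁, hy₁, hy₂⟩ := (hBN (cN X m) (t m) (by rw [h6])).1 hmem
    refine ⟨T.node (T.node X (T.unary m)) (T.node y₁ (T.unary (t m))), ?_, fun z hz => ?_⟩
    · simp only [T.size, T.size_unary]
      omega
    · refine hB2 _ ?_
      obtain ⟨v, hv⟩ : ∃ v, v = cin φ.enc s (T.node (T.node X (T.unary m))
        (T.node y₁ (T.unary (t m)))) z := ⟨_, rfl⟩
      rw [← hv]
      have eX : gX v = X := by rw [hv]; rfl
      have em : gm v = m := by rw [hv]; exact T.len_unary m
      have ey : gy v = y₁ := by rw [hv]; rfl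
      have es : gs v = t m := by rw [hv]; exact T.len_unary _
      have ez : wz v = z := by rw [hv]; rfl
      have eφ : wφ v = φ.enc := by rw [hv]; rfl
      unfold Bad
      rw [eX, em, ey, es, ez, eφ]
      rintro (h | h | h | h | ⟨h, h'⟩)
      · exact h hX
      · omega
      · exact (hft m (t m)).2 rfl h
      · omega
      · exact hy₂ z h h'

/-- The general theorem. -/
theorem gen (μ : Fm) (hμ : IsUniversal μ) (P : Code → ℕ → Fm) (hP : IsFormalisation μ P)
    (S T₀ : Set Fm) (hS : InClassT S) (hT₀ : InClassT T₀) {N : Set ℕ} {t : ℕ → ℕ} {ext : T → T}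
    (he : PolyTime ext) (ht : Constructible t) (hN : InSigma2Time t N)
    (hsound : ∀ x ∈ N, Provable S (decFm (ext (dN x)))) :
    ∃ (c : Code) (κ : ℕ), HaltsWithin c κ ∧ InClassT (theory c κ) ∧ SameModels (theory c κ) T₀ ∧
      ∃ e n₀ : ℕ, ∀ n ≥ n₀, ∀ (X : T) (m : ℕ), ext X = (rfn (P c κ) μ n).enc → X.size + 3 ≤ m →
        (3 * m + 3 * t m + 6) ^ e ≤ n → cN X m ∉ N := by
  obtain ⟨B, hB, hBS, hBC⟩ := cert_of he ht hN hsound
  obtain ⟨c, κ, hh, hm, e, n₀, h⟩ := no_cert μ hμ P hP S T₀ hS hT₀ B hB hBS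
  refine ⟨c, κ, hh, MB.inClass_of hT₀ hh hm, hm, e, n₀, fun n hn X m hX hXm hs hmem => ?_⟩
  obtain ⟨y, hy, hyz⟩ := hBC (rfn (P c κ) μ n) X m (3 * m + 3 * t m + 6) hX hXm hmem (by omega)
  obtain ⟨z, hz, hz0⟩ := h n hn (3 * m + 3 * t m + 6) y hs hy
  exact hyz z hz hz0

end Pool.Agent.LGD
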