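import Pool.Agent.LGD.Up

set_option autoImplicit false

/-!
# MP_5b54e3_co: general set sizes. The lower bounds.
-/

namespace Pool.Agent.LGD

open Finset Pool.Agent.LGC

/-- a set without a clique of size `q` and with at least `q ^ m` vertices has an independent
subset of size `m` -/
theorem ramsey {V : Type} (G : SimpleGraph V) (q : ℕ) (hq : 1 ≤ q) :
    ∀ (m : ℕ) (W : Finset V), (∀ T ⊆ W, G.IsClique (T : Set V) → T.card < q) → q ^ m ≤ W.card →
      ∃ I ⊆ W, I.card = m ∧ ∀ x ∈ I, ∀ y ∈ I, x ≠ y → ¬ G.Adj x y := by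
  classical
  intro m
  induction m with
  | zero =>
    intro W _ _
    exact ⟨∅, by simp, by simp, by simp⟩
  | succ m ih =>
    intro W hcl hW
    obtain ⟨Q, hQ, hmax⟩ := Finset.exists_max_image
      (W.powerset.filter (fun T : Finset V => G.IsClique (T : Set V))) Finset.card
      ⟨∅, by simp⟩
    rw [mem_filter, mem_powerset] at hQ
    have hQq := hcl Q hQ.1 hQ.2
    -- every vertex outside `Q` has a non-neighbour in `Q`
    have hout : W \ Q ⊆ Q.biUnion (fun x => (W \ Q).filter (fun v => ¬ G.Adj x v)) := by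
      intro v hv
      rw [mem_biUnion]
      by_contra hcon
      push Not at hcon
      have hadj : ∀ x ∈ Q, G.Adj x v := by
        intro x hx
        by_contra hnot
        exact hcon x hx (mem_filter.2 ⟨hv, hnot⟩)
      rw [mem_sdiff] at hv
      have hc : G.IsClique ((insert v Q : Finset V) : Set V) := by
        rw [coe_insert, SimpleGraph.isClique_insert]
        exact ⟨hQ.2, fun b hb _ => (hadj b hb).symm⟩
      have := hmax (insert v Q) (mem_filter.2 ⟨mem_powerset.2 (insert_subset hv.1 hQ.1), hc⟩)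
      rw [card_insert_of_notMem hv.2] at this
      omega
    obtain ⟨x, hx, hxc⟩ : ∃ x ∈ Q, q ^ m ≤ ((W \ Q).filter (fun v => ¬ G.Adj x v)).card := by
      by_contra hcon
      push Not at hcon
      have h1 : (W \ Q).card ≤ ∑ x ∈ Q, ((W \ Q).filter (fun v => ¬ G.Adj x v)).card :=
        (card_le_card hout).trans card_biUnion_le
      have h2 : ∑ x ∈ Q, ((W \ Q).filter (fun v => ¬ G.Adj x v)).card ≤ ∑ _x ∈ Q, (q ^ m - 1) :=
        sum_le_sum fun x hx => Nat.le_sub_one_of_lt (hcon x hx)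
      rw [sum_const, smul_eq_mul] at h2
      have h3 : (W \ Q).card = W.card - Q.card := card_sdiff_of_subset hQ.1
      have h4 : Q.card ≤ W.card := card_le_card hQ.1
      have h5 : Q.card * (q ^ m - 1) ≤ (q - 1) * (q ^ m - 1) :=
        Nat.mul_le_mul_right _ (by omega)
      have h6 : 1 ≤ q ^ m := Nat.one_le_pow _ _ hq
      obtain ⟨a, ha⟩ : ∃ a, q = a + 1 := ⟨q - 1, by omega⟩
      obtain ⟨b, hb⟩ : ∃ b, q ^ m = b + 1 := ⟨q ^ m - 1, by omega⟩
      have h7 : q ^ (m + 1) = (b + 1) * (a + 1) := by rw [pow_succ, hb, ha]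
      rw [hb] at h5 h2
      rw [ha] at h5
      rw [h7] at hW
      simp only [Nat.add_sub_cancel] at h5 h2
      have h8 : (b + 1) * (a + 1) = a * b + a + b + 1 := by ring
      omega
    obtain ⟨I, hI1, hI2, hI3⟩ := ih ((W \ Q).filter (fun v => ¬ G.Adj x v))
      (fun T hT hTc => hcl T (hT.trans ((filter_subset _ _).trans sdiff_subset)) hTc) hxc
    have hxI : x ∉ I := fun h => (mem_sdiff.1 (mem_filter.1 (hI1 h)).1).2 hx
    refine ⟨insert x I, ?_, ?_, ?_⟩
    · apply insert_subset (hQ.1 hx)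
      exact hI1.trans ((filter_subset _ _).trans sdiff_subset)
    · rw [card_insert_of_notMem hxI, hI2]
    · intro u hu v hv huv
      rw [mem_insert] at hu hv
      rcases hu with rfl | hu <;> rcases hv with rfl | hv
      · exact absurd rfl huv
      · exact (mem_filter.1 (hI1 hv)).2
      · exact fun h => (mem_filter.1 (hI1 hu)).2 h.symm
      · exact hI3 u hu v hv huv

/-- disjoint independent sets -/
theorem disj_ind {V : Type} (G : SimpleGraph V) (q : ℕ) (hq : 1 ≤ q) (m : ℕ) :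
    ∀ (j : ℕ) (W : Finset V), (∀ T ⊆ W, G.IsClique (T : Set V) → T.card < q) →
      j * m + q ^ m ≤ W.card →
      ∃ U ⊆ W, U.card = j * m ∧ ∀ T ⊆ U, G.IsClique (T : Set V) → T.card ≤ j := by
  classical
  intro j
  induction j with
  | zero =>
    intro W _ _
    refine ⟨∅, by simp, by simp, ?_⟩
    intro T hT _
    rw [subset_empty.1 hT]
    simp
  | succ j ih =>
    intro W hcl hW
    obtain ⟨I, hI1, hI2, hI3⟩ := ramsey G q hq m W hcl (by
      have : 0 ≤ (j + 1) * m := Nat.zero_le _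
      omega)
    have hc : (W \ I).card = W.card - m := by rw [card_sdiff_of_subset hI1, hI2]
    have hj : (j + 1) * m = j * m + m := by ring
    obtain ⟨U, hU1, hU2, hU3⟩ := ih (W \ I) (fun T hT hTc => hcl T (hT.trans sdiff_subset) hTc)
      (by rw [hc]; omega)
    refine ⟨I ∪ U, union_subset hI1 (hU1.trans sdiff_subset), ?_, ?_⟩
    · rw [card_union_of_disjoint, hI2, hU2]
      · ring
      · rw [disjoint_left]
        intro x hx hx'
        exact (mem_sdiff.1 (hU1 hx')).2 hx
    · intro T hT hTc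
      have h1 : (T ∩ I).card ≤ 1 := by
        rw [card_le_one]
        intro a ha b hb
        by_contra hab
        rw [mem_inter] at ha hb
        exact hI3 a ha.2 b hb.2 hab (hTc (mem_coe.2 ha.1) (mem_coe.2 hb.1) hab)
      have h2 : (T \ I).card ≤ j := by
        apply hU3
        · intro x hx
          rw [mem_sdiff] at hx
          rcases mem_union.1 (hT hx.1) with h | h
          · exact absurd h hx.2
          · exact h
        · intro x hx y hy hxy
          rw [mem_coe, mem_sdiff] at hx hy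
          exact hTc (mem_coe.2 hx.1) (mem_coe.2 hy.1) hxy
      have h3 := card_inter_add_card_sdiff T I
      omega

/-- if there is no clique of size `q`, then `s / t` is large -/
theorem low2_core {n s t q m : ℕ} (G : SimpleGraph (Fin n)) (hG : Loc s t n G) (hq : 1 ≤ q)
    (hm : 1 ≤ m) (hcl : ∀ T : Finset (Fin n), G.IsClique (T : Set (Fin n)) → T.card < q)
    (hn : s + m + q ^ m ≤ n) : t * m ≤ s + m := by
  obtain ⟨U, -, hU2, hU3⟩ := disj_ind G q hq m (s / m + 1) univ (fun T _ hT => hcl T hT) (by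
    rw [card_univ, Fintype.card_fin]
    have h1 : (s / m + 1) * m = s / m * m + m := by ring
    have h2 := Nat.div_mul_le_self s m
    omega)
  have h1 : s ≤ U.card := by
    rw [hU2]
    have h2 : s < m * (s / m + 1) := Nat.lt_mul_div_succ s hm
    have h3 : m * (s / m + 1) = (s / m + 1) * m := Nat.mul_comm _ _
    omega
  obtain ⟨S, hS, hSc⟩ := exists_subset_card_eq h1
  obtain ⟨T, hT, hTc, hTcl⟩ := hG S hSc
  have h4 := hU3 T (hT.trans hS) hTcl
  rw [hTc] at h4
  calc t * m ≤ (s / m + 1) * m := Nat.mul_le_mul_right m h4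
    _ = s / m * m + m := by ring
    _ ≤ s + m := Nat.add_le_add_right (Nat.div_mul_le_self s m) m

/-- the largest clique -/
theorem max_clique {n : ℕ} (G : SimpleGraph (Fin n)) : ∃ Q : Finset (Fin n),
    G.IsClique (Q : Set (Fin n)) ∧
      ∀ T : Finset (Fin n), G.IsClique (T : Set (Fin n)) → T.card ≤ Q.card := by
  classical
  obtain ⟨Q, hQ, hmax⟩ := Finset.exists_max_image
    ((univ : Finset (Finset (Fin n))).filter
      (fun T : Finset (Fin n) => G.IsClique (T : Set (Fin n)))) Finset.card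
    ⟨∅, by simp⟩
  rw [mem_filter] at hQ
  exact ⟨Q, hQ.2, fun T hT => hmax T (mem_filter.2 ⟨mem_univ _, hT⟩)⟩

/-- the first lower bound -/
theorem g_low1 (δ : ℝ) (hδ0 : 0 < δ) (n s t : ℕ) (ht : 2 ≤ t) (hts : 3 * (t : ℝ) ≤ s)
    (hsn : (s : ℝ) ≤ (n : ℝ) ^ (1 - δ)) (hn : 1 ≤ n) (G : SimpleGraph (Fin n))
    (hG : Loc s t n G) : ∃ Q : Finset (Fin n), G.IsClique (Q : Set (Fin n)) ∧
      δ / 12 * (t * Real.log n / Real.log (s / t)) ≤ (Q.card : ℝ) := by
  obtain ⟨L, hL⟩ : ∃ L : ℝ, L = Real.log n := ⟨_, rfl⟩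
  rw [← hL]
  have hn0 : (0 : ℝ) < n := by exact_mod_cast hn
  have ht2 : (2 : ℝ) ≤ t := by exact_mod_cast ht
  have ht0 : (0 : ℝ) < t := by linarith
  have hs0 : (0 : ℝ) < s := by linarith
  have hts' : t ≤ s := by
    have : (t : ℝ) ≤ s := by linarith
    exact_mod_cast this
  have hL0 : 0 ≤ L := by
    rw [hL]
    exact Real.log_nonneg (by exact_mod_cast hn)
  have hr3 : 3 ≤ (s : ℝ) / t := by
    rw [le_div_iff₀ ht0]
    exact hts
  have hlam : 0 < Real.log ((s : ℝ) / t) := Real.log_pos (by linarith)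
  obtain ⟨R, hR⟩ : ∃ R : ℝ, R = (3 * s / t : ℝ) ^ 2 := ⟨_, rfl⟩
  have hR3 : 3 * s / t = 3 * ((s : ℝ) / t) := by ring
  have hR1 : 1 < R := by
    rw [hR, hR3]
    nlinarith
  have hlogR : 0 < Real.log R := Real.log_pos hR1
  have hlogR2 : Real.log R ≤ 4 * Real.log ((s : ℝ) / t) := by
    have h1 : R ≤ ((s : ℝ) / t) ^ 4 := by
      rw [hR, hR3]
      have : 3 * ((s : ℝ) / t) ≤ ((s : ℝ) / t) ^ 2 := by nlinarith
      calc (3 * ((s : ℝ) / t)) ^ 2 ≤ (((s : ℝ) / t) ^ 2) ^ 2 :=
            pow_le_pow_left₀ (by positivity) this 2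
        _ = ((s : ℝ) / t) ^ 4 := by ring
    have h2 := Real.log_le_log (by linarith) h1
    rw [Real.log_pow] at h2
    exact_mod_cast h2
  have hlogs : Real.log s ≤ (1 - δ) * L := by
    have h1 := Real.log_le_log hs0 hsn
    rwa [Real.log_rpow hn0, ← hL] at h1
  obtain ⟨m, hm⟩ : ∃ m : ℕ, m = ⌊(L - Real.log s) / Real.log R⌋₊ := ⟨_, rfl⟩
  have hnn : 0 ≤ (L - Real.log s) / Real.log R := by
    apply div_nonneg _ hlogR.le
    nlinarith
  have hmle : (m : ℝ) * Real.log R ≤ L - Real.log s := by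
    have := Nat.floor_le hnn
    rwa [le_div_iff₀ hlogR, ← hm] at this
  have hmge : (L - Real.log s) / Real.log R < m + 1 := by
    rw [hm]
    exact Nat.lt_floor_add_one _
  have hcard : (s : ℝ) * R ^ m ≤ ((univ : Finset (Fin n)).card : ℝ) := by
    rw [Finset.card_univ, Fintype.card_fin]
    have hpos : 0 < (s : ℝ) * R ^ m := by positivity
    rw [← Real.log_le_log_iff hpos hn0, Real.log_mul hs0.ne' (by positivity), Real.log_pow, ← hL]
    linarith
  obtain ⟨Q, -, hQ, hcl⟩ := low_iter low1 (Fin n) G s t R (by omega) hts' hR1.le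
    (by rw [hR]; exact low_num s t (by omega) hts') hG m univ hcard
  refine ⟨Q, hcl, ?_⟩
  have hQ' : ((m : ℝ) + 1) * ((t / 2 : ℕ) : ℝ) ≤ Q.card := by exact_mod_cast hQ
  have ht4 : (t : ℝ) / 3 ≤ ((t / 2 : ℕ) : ℝ) := by
    have h1 : (t : ℝ) ≤ 3 * ((t / 2 : ℕ) : ℝ) := by
      have : t ≤ 3 * (t / 2) := by omega
      exact_mod_cast this
    linarith
  have hm2 : δ * L / (4 * Real.log ((s : ℝ) / t)) ≤ (m : ℝ) + 1 := by
    refine le_trans ?_ hmge.le
    rw [div_le_div_iff₀ (by positivity) hlogR]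
    have h1 : δ * L ≤ L - Real.log s := by linarith
    have h2 : 0 ≤ δ * L := by positivity
    calc δ * L * Real.log R ≤ δ * L * (4 * Real.log ((s : ℝ) / t)) :=
          mul_le_mul_of_nonneg_left hlogR2 h2
      _ ≤ (L - Real.log s) * (4 * Real.log ((s : ℝ) / t)) :=
          mul_le_mul_of_nonneg_right h1 (by positivity)
  calc δ / 12 * (t * L / Real.log ((s : ℝ) / t)) =
        δ * L / (4 * Real.log ((s : ℝ) / t)) * (t / 3) := by
        field_simp
        ring
    _ ≤ ((m : ℝ) + 1) * ((t / 2 : ℕ) : ℝ) := by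
        apply mul_le_mul hm2 ht4 (by positivity) (by positivity)
    _ ≤ Q.card := hQ'

/-- the second lower bound -/
theorem g_low2 (δ : ℝ) (hδ0 : 0 < δ) : ∃ n₀ : ℕ, ∀ n s t : ℕ, n₀ ≤ n → 2 ≤ t → t ≤ s →
    (s : ℝ) ≤ (n : ℝ) ^ (1 - δ) → ∀ G : SimpleGraph (Fin n), Loc s t n G →
      ∃ Q : Finset (Fin n), G.IsClique (Q : Set (Fin n)) ∧
        Real.exp (1 / 12 * (t * Real.log n / s)) ≤ (Q.card : ℝ) := by
  refine ⟨⌈(4 : ℝ) ^ (1 / δ)⌉₊ + 64, ?_⟩
  intro n s t hn ht hts hsn G hG
  obtain ⟨L, hL⟩ : ∃ L : ℝ, L = Real.log n := ⟨_, rfl⟩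
  rw [← hL]
  have hn64 : (64 : ℝ) ≤ n := by
    have : 64 ≤ n := by omega
    exact_mod_cast this
  have hn4 : (4 : ℝ) ^ (1 / δ) ≤ n := by
    have h1 : ⌈(4 : ℝ) ^ (1 / δ)⌉₊ ≤ n := by omega
    exact (Nat.le_ceil _).trans (by exact_mod_cast h1)
  have hn0 : (0 : ℝ) < n := by linarith
  have ht2 : (2 : ℝ) ≤ t := by exact_mod_cast ht
  have ht0 : (0 : ℝ) < t := by linarith
  have hts' : (t : ℝ) ≤ s := by exact_mod_cast hts
  have hs0 : (0 : ℝ) < s := by linarith
  have hL0 : 0 < L := by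
    rw [hL]
    exact Real.log_pos (by linarith)
  -- `s ≤ n / 4`
  have hs4 : (s : ℝ) ≤ n / 4 := by
    have h1 : (4 : ℝ) ≤ (n : ℝ) ^ δ := by
      have h2 : ((4 : ℝ) ^ (1 / δ)) ^ δ ≤ (n : ℝ) ^ δ :=
        Real.rpow_le_rpow (by positivity) hn4 hδ0.le
      rwa [← Real.rpow_mul (by norm_num), one_div, inv_mul_cancel₀ hδ0.ne', Real.rpow_one] at h2
    have h3 : (n : ℝ) ^ (1 - δ) * (n : ℝ) ^ δ = n := by
      rw [← Real.rpow_add hn0]
      simp
    have h4 : 0 < (n : ℝ) ^ (1 - δ) := Real.rpow_pos_of_pos hn0 _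
    nlinarith
  obtain ⟨Q, hQ, hmax⟩ := max_clique G
  refine ⟨Q, hQ, ?_⟩
  -- the clique number is at least 2
  have hQ2 : 2 ≤ Q.card := by
    have hsn' : s ≤ (univ : Finset (Fin n)).card := by
      rw [card_univ, Fintype.card_fin]
      have : (s : ℝ) ≤ n := by linarith
      exact_mod_cast this
    obtain ⟨S, -, hSc⟩ := exists_subset_card_eq hsn'
    obtain ⟨T, -, hTc, hTcl⟩ := hG S hSc
    have := hmax T hTcl
    omega
  have hQ2' : (2 : ℝ) ≤ Q.card := by exact_mod_cast hQ2
  obtain ⟨q, hq⟩ : ∃ q : ℕ, q = Q.card + 1 := ⟨_, rfl⟩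
  have hqr : (q : ℝ) = Q.card + 1 := by rw [hq]; push_cast; ring
  have hq1 : 1 < (q : ℝ) := by linarith
  have hlq : 0 < Real.log q := Real.log_pos hq1
  have hlq2 : Real.log 2 ≤ Real.log q := Real.log_le_log (by norm_num) (by linarith)
  obtain ⟨m, hm⟩ : ∃ m : ℕ, m = ⌊L / 2 / Real.log q⌋₊ := ⟨_, rfl⟩
  have hmle : (m : ℝ) * Real.log q ≤ L / 2 := by
    have := Nat.floor_le (show 0 ≤ L / 2 / Real.log q by positivity)
    rwa [le_div_iff₀ hlq, ← hm] at this
  have hmge : L / 2 / Real.log q < m + 1 := by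
    rw [hm]
    exact Nat.lt_floor_add_one _
  -- the bound on `m`
  have hmr : (m : ℝ) ≤ 2 * (s / t) := by
    rcases Nat.eq_zero_or_pos m with h0 | h0
    · rw [h0]
      push_cast
      positivity
    have hqm : (q : ℝ) ^ m ≤ n / 4 := by
      have h1 : (q : ℝ) ^ m ≤ Real.exp (L / 2) := by
        have h2 : (q : ℝ) ^ m = Real.exp (m * Real.log q) := by
          rw [Real.exp_nat_mul, Real.exp_log (by linarith)]
        rw [h2]
        exact Real.exp_le_exp.2 hmle
      have h3 : Real.exp (L / 2) * Real.exp (L / 2) = n := by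
        rw [← Real.exp_add, hL, add_halves, Real.exp_log hn0]
      have h4 : 0 < Real.exp (L / 2) := Real.exp_pos _
      have h5 : 4 ≤ Real.exp (L / 2) := by
        by_contra hcon
        push Not at hcon
        nlinarith
      nlinarith
    have hmn : (m : ℝ) ≤ n / 4 := by
      have h1 : (0.69 : ℝ) ≤ Real.log 2 := by
        have := Real.log_two_gt_d9
        linarith
      have h2 : (m : ℝ) * 0.69 ≤ L / 2 := by
        have h3 : (0 : ℝ) ≤ m := Nat.cast_nonneg m
        nlinarith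
      have h4 : L ≤ n / 4 := by
        have h5 : Real.log ((n : ℝ) / 16) ≤ (n : ℝ) / 16 - 1 :=
          Real.log_le_sub_one_of_pos (by positivity)
        have h6 : Real.log ((n : ℝ) / 16) = L - Real.log 16 := by
          rw [Real.log_div hn0.ne' (by norm_num), hL]
        have h7 : Real.log 16 ≤ 4 := by
          rw [Real.log_le_iff_le_exp (by norm_num)]
          have h8 : Real.exp 4 = Real.exp 1 ^ 4 := by
            rw [← Real.exp_nat_mul]
            norm_num
          rw [h8]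
          have h9 : (2 : ℝ) ^ 4 ≤ Real.exp 1 ^ 4 :=
            pow_le_pow_left₀ (by norm_num) (by linarith [Real.add_one_le_exp (1 : ℝ)]) 4
          norm_num at h9
          linarith
        rw [h6] at h5
        linarith
      linarith
    have hsum : s + m + q ^ m ≤ n := by
      have : (s : ℝ) + m + (q : ℝ) ^ m ≤ n := by linarith
      exact_mod_cast this
    have hcore := low2_core G hG (by omega) h0 (fun T hT => by
      have := hmax T hT
      omega) hsum
    have hcore' : (t : ℝ) * m ≤ s + m := by exact_mod_cast hcore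
    rw [mul_div_assoc', le_div_iff₀ ht0]
    have h1 : (0 : ℝ) ≤ m := Nat.cast_nonneg m
    nlinarith
  -- conclusion
  have hst : 1 ≤ (s : ℝ) / t := by
    rw [le_div_iff₀ ht0]
    linarith
  have hfin : L / 2 / Real.log q < 3 * (s / t) := by linarith
  rw [div_lt_iff₀ hlq] at hfin
  have hfin2 : 1 / 6 * (t * L / s) ≤ Real.log q := by
    have h1 : t * L / s = L / (s / t) := by field_simp
    rw [h1, mul_div_assoc', div_le_iff₀ (by positivity)]
    nlinarith
  have hfin3 : Real.exp (1 / 6 * (t * L / s)) ≤ q := by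
    rw [← Real.le_log_iff_exp_le (by linarith)]
    exact hfin2
  have hsq : Real.exp (1 / 12 * (t * L / s)) ^ 2 = Real.exp (1 / 6 * (t * L / s)) := by
    rw [← Real.exp_nat_mul]
    congr 1
    push_cast
    ring
  have h1 : 0 < Real.exp (1 / 12 * (t * L / s)) := Real.exp_pos _
  by_contra hcon
  push Not at hcon
  rw [← hsq] at hfin3
  nlinarith

end Pool.Agent.LGD
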