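import Pool.Agent.LGD.Gen

/-!
# The union of certificate notions
-/

set_option autoImplicit false

namespace Pool.Agent.LGD

open Pool.Agent.H19 Pool.Agent.H19.T Pool.Agent.PO Pool.Agent.S2L Pool.Agent.RU Pool.Agent.Q2E

section
variable (B₁ B₂ : T → T)

/-- The value of the check given by the tag of the certificate `node (node tag (unary s₁)) y₁`. -/
def selB (v : T) : T := tif (wy v).left.left
  (B₁ (cin' (wφ v) (wy v).left.right.len (wy v).right (wz v)))
  (B₂ (cin' (wφ v) (wy v).left.right.len (wy v).right (wz v)))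
where
  /-- The input of the check. -/
  cin' (φ : T) (s : ℕ) (y z : T) : T := T.node φ (T.node (T.node y z) (T.unary s))

/-- The opponent wins. -/
def BadU (v : T) : Prop := (wy v).left.right.len < (wy v).right.size ∨
  ws v < (wy v).left.right.len ∨ ((wz v).size ≤ (wy v).left.right.len ∧ selB B₁ B₂ v = T.leaf)

variable {B₁ B₂}

theorem selB_polyTime (h₁ : PolyTime B₁) (h₂ : PolyTime B₂) : PolyTime (selB B₁ B₂) := by
  have i := PolyTime.id
  have hφ : PolyTime wφ := i.left
  have hy : PolyTime wy := i.right.left.left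
  have hz : PolyTime wz := i.right.left.right
  have hs0 : PolyNat (fun v => (wy v).left.right.len) := PolyNat.len hy.left.right
  have h : PolyTime (fun v => selB.cin' (wφ v) (wy v).left.right.len (wy v).right (wz v)) :=
    hφ.node ((hy.right.node hz).node hs0.unary)
  exact PolyTime.tif hy.left.left (h₁.comp h) (h₂.comp h)

theorem badU_polyDec (h₁ : PolyTime B₁) (h₂ : PolyTime B₂) : PolyDec (BadU B₁ B₂) := by
  have i := PolyTime.id
  have hy : PolyTime wy := i.right.left.left
  have hz : PolyTime wz := i.right.left.right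
  have hs : PolyNat ws := PolyNat.len i.right.right
  have hs0 : PolyNat (fun v => (wy v).left.right.len) := PolyNat.len hy.left.right
  refine ((PolyDec.le (PolyNat.size hy.right) hs0).not.congr fun v => by rw [Nat.not_le]).or ?_
  refine ((PolyDec.le hs0 hs).not.congr fun v => by rw [Nat.not_le]).or ?_
  exact (PolyDec.le (PolyNat.size hz) hs0).and (PolyDec.eq_leaf (selB_polyTime h₁ h₂))

end

/-- `y` of size at most `s` is a certificate for `φ`. -/
def IsCert (B : T → T) (φ : Fm) (s : ℕ) : Prop :=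
  ∃ y : T, y.size ≤ s ∧ ∀ z : T, z.size ≤ s → B (cin φ.enc s y z) ≠ T.leaf

/-- The union of two sound notions of certificates. -/
theorem union {S : Set Fm} {B₁ B₂ : T → T} (h₁ : PolyTime B₁) (h₂ : PolyTime B₂)
    (s₁ : SoundCert S B₁) (s₂ : SoundCert S B₂) :
    ∃ B : T → T, PolyTime B ∧ SoundCert S B ∧ ∀ (φ : Fm) (s : ℕ),
      IsCert B₁ φ s ∨ IsCert B₂ φ s → IsCert B φ (10 * s + 10) := by
  classical
  obtain ⟨B, hB, hB1, hB2⟩ : ∃ B : T → T, PolyTime B ∧
      (∀ v, BadU B₁ B₂ v → B v = T.leaf) ∧ ∀ v, ¬ BadU B₁ B₂ v → B v ≠ T.leaf := by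
    refine ⟨_, PolyTime.ifP (badU_polyDec h₁ h₂) (PolyTime.const T.leaf)
      (PolyTime.const (T.node T.leaf T.leaf)), fun v hv => if_pos hv, fun v hv => ?_⟩
    beta_reduce
    rw [if_neg hv]
    simp
  refine ⟨B, hB, ?_, ?_⟩
  · intro φ s y hy hall
    have hnb : ∀ z : T, z.size ≤ s → ¬ BadU B₁ B₂ (cin φ.enc s y z) :=
      fun z hz h => hall z hz (hB1 _ h)
    have hs1 : (T.leaf).size ≤ s := by rw [T.size]; have := T.size_pos y; omega
    have ey : ∀ z, wy (cin φ.enc s y z) = y := fun z => rfl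
    have ez : ∀ z, wz (cin φ.enc s y z) = z := fun z => rfl
    have eS : ∀ z, ws (cin φ.enc s y z) = s := fun z => T.len_unary s
    have h0 := hnb T.leaf hs1
    unfold BadU at h0
    rw [ey, eS] at h0
    push Not at h0
    obtain ⟨h1, h2, -⟩ := h0
    have h3 : ∀ z : T, z.size ≤ y.left.right.len → selB B₁ B₂ (cin φ.enc s y z) ≠ T.leaf := by
      intro z hz h
      exact hnb z (hz.trans h2) (Or.inr (Or.inr ⟨by rw [ez, ey]; exact hz, h⟩))
    by_cases ht : y.left.left = T.leaf
    · refine s₁ φ y.left.right.len y.right h1 fun z hz h => h3 z hz ?_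
      show tif y.left.left (B₁ (cin φ.enc y.left.right.len y.right z)) _ = T.leaf
      rw [ht, tif_leaf]
      exact h
    · refine s₂ φ y.left.right.len y.right h1 fun z hz h => h3 z hz ?_
      show tif y.left.left _ (B₂ (cin φ.enc y.left.right.len y.right z)) = T.leaf
      rw [tif, if_neg ht]
      exact h
  · rintro φ s (⟨y, hy, hyz⟩ | ⟨y, hy, hyz⟩)
    · refine ⟨T.node (T.node T.leaf (T.unary s)) y, ?_, fun z hz => hB2 _ ?_⟩
      · simp only [T.size, T.size_unary]
        omega
      · have e1 : (wy (cin φ.enc (10 * s + 10) (T.node (T.node T.leaf (T.unary s)) y)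
          z)).left.right.len = s := T.len_unary s
        have e2 : ws (cin φ.enc (10 * s + 10) (T.node (T.node T.leaf (T.unary s)) y) z) =
          10 * s + 10 := T.len_unary _
        unfold BadU
        rw [e1, e2]
        rintro (h | h | ⟨h, h'⟩)
        · exact absurd h (by
            show ¬ (s < y.size)
            omega)
        · omega
        · refine hyz z h ?_
          have e3 : selB B₁ B₂ (cin φ.enc (10 * s + 10) (T.node (T.node T.leaf (T.unary s)) y) z) =
              B₁ (cin φ.enc s y z) := by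
            show tif T.leaf (B₁ (selB.cin' φ.enc (wy (cin φ.enc (10 * s + 10)
              (T.node (T.node T.leaf (T.unary s)) y) z)).left.right.len y z)) _ = _
            rw [tif_leaf, e1]
            rfl
          rw [← e3]
          exact h'
    · refine ⟨T.node (T.node (T.node T.leaf T.leaf) (T.unary s)) y, ?_, fun z hz => hB2 _ ?_⟩
      · simp only [T.size, T.size_unary]
        omega
      · have e1 : (wy (cin φ.enc (10 * s + 10) (T.node (T.node (T.node T.leaf T.leaf)
          (T.unary s)) y) z)).left.right.len = s := T.len_unary s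
        have e2 : ws (cin φ.enc (10 * s + 10) (T.node (T.node (T.node T.leaf T.leaf)
          (T.unary s)) y) z) = 10 * s + 10 := T.len_unary _
        unfold BadU
        rw [e1, e2]
        rintro (h | h | ⟨h, h'⟩)
        · exact absurd h (by
            show ¬ (s < y.size)
            omega)
        · omega
        · refine hyz z h ?_
          have e3 : selB B₁ B₂ (cin φ.enc (10 * s + 10) (T.node (T.node (T.node T.leaf T.leaf)
              (T.unary s)) y) z) = B₂ (cin φ.enc s y z) := by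
            show tif (T.node T.leaf T.leaf) _ (B₂ (selB.cin' φ.enc (wy (cin φ.enc (10 * s + 10)
              (T.node (T.node (T.node T.leaf T.leaf) (T.unary s)) y) z)).left.right.len y z)) = _
            rw [tif, if_neg (by simp), e1]
            rfl
          rw [← e3]
          exact h'

/-- One theory for two sound notions of certificates. -/
theorem no_cert_list (μ : Fm) (hμ : IsUniversal μ) (P : Code → ℕ → Fm) (hP : IsFormalisation μ P)
    (S T₀ : Set Fm) (hS : InClassT S) (hT₀ : InClassT T₀) (L : List (T → T))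
    (hL : ∀ B ∈ L, PolyTime B ∧ SoundCert S B) :
    ∃ (c : Code) (κ : ℕ), HaltsWithin c κ ∧ InClassT (theory c κ) ∧ SameModels (theory c κ) T₀ ∧
      ∀ B ∈ L, ∃ e n₀ : ℕ, ∀ n ≥ n₀, ∀ s : ℕ, s ^ e ≤ n → ¬ IsCert B (rfn (P c κ) μ n) s := by
  -- the union of the list
  have key : ∀ L : List (T → T), (∀ B ∈ L, PolyTime B ∧ SoundCert S B) →
      ∃ B₀ : T → T, PolyTime B₀ ∧ SoundCert S B₀ ∧ ∀ B ∈ L, ∀ e₀ : ℕ, ∃ e n₀ : ℕ, ∀ n ≥ n₀,
        ∀ s : ℕ, s ^ e ≤ n → ∃ s₀ : ℕ, s₀ ^ e₀ ≤ n ∧ ∀ φ : Fm, IsCert B φ s → IsCert B₀ φ s₀ := by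
    intro L
    induction L with
    | nil =>
      intro _
      refine ⟨fun _ => T.leaf, PolyTime.const _, fun φ s y hy h => ?_, by simp⟩
      exact absurd rfl (h T.leaf (by rw [T.size]; have := T.size_pos y; omega))
    | cons B L ih =>
      intro hL
      obtain ⟨B₁, h1, h2, h3⟩ := ih fun B hB => hL B (List.mem_cons_of_mem _ hB)
      obtain ⟨hB, hBS⟩ := hL B List.mem_cons_self
      obtain ⟨B₀, h4, h5, h6⟩ := union hB h1 hBS h2
      refine ⟨B₀, h4, h5, fun B' hB' e₀ => ?_⟩
      obtain ⟨n₁, hn₁⟩ := arith3 e₀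
      rcases List.mem_cons.1 hB' with rfl | hB'
      · exact ⟨2 * e₀, n₁, fun n hn s hs => ⟨10 * s + 10, hn₁ n hn s hs,
          fun φ h => h6 φ s (Or.inl h)⟩⟩
      · obtain ⟨e, n₂, hn₂⟩ := h3 B' hB' (2 * e₀)
        refine ⟨e, max n₁ n₂, fun n hn s hs => ?_⟩
        obtain ⟨s₀, hs₀, h⟩ := hn₂ n ((le_max_right _ _).trans hn) s hs
        exact ⟨10 * s₀ + 10, hn₁ n ((le_max_left _ _).trans hn) s₀ hs₀,
          fun φ h' => h6 φ s₀ (Or.inr (h φ h'))⟩
  obtain ⟨B₀, h1, h2, h3⟩ := key L hL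
  obtain ⟨c, κ, hh, hm, e₀, n₀, h⟩ := no_cert μ hμ P hP S T₀ hS hT₀ B₀ h1 h2
  refine ⟨c, κ, hh, MB.inClass_of hT₀ hh hm, hm, fun B hB => ?_⟩
  obtain ⟨e, n₁, hn₁⟩ := h3 B hB e₀
  refine ⟨e, max n₀ n₁, fun n hn s hs hc => ?_⟩
  obtain ⟨s₀, hs₀, h4⟩ := hn₁ n ((le_max_right _ _).trans hn) s hs
  obtain ⟨y, hy, hyz⟩ := h4 _ hc
  obtain ⟨z, hz, hz0⟩ := h n ((le_max_left _ _).trans hn) s₀ y hs₀ hy
  exact hyz z hz hz0

end Pool.Agent.LGD
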