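import Pool.Agent.LGD.Main
import Pool.Agent.LGD.Desc

/-!
# Certificates, described proofs, and the lengths of the proofs of the reflection sentences
-/

set_option autoImplicit false

namespace Pool.Agent.LGD

open Pool.Agent.H19 Pool.Agent.H19.T Pool.Agent.PO Pool.Agent.S2L Pool.Agent.RU Pool.Agent.Q2E

theorem main2 (μ : Fm) (hμ : IsUniversal μ) (P : Code → ℕ → Fm) (hP : IsFormalisation μ P)
    (S T₀ : Set Fm) (hS : InClassT S) (hT₀ : InClassT T₀) (B : T → T) (hB : PolyTime B)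
    (hsound : SoundCert S B) (V : Code) (hV : SoundChecker S V) :
    ∃ (c : Code) (κ : ℕ), HaltsWithin c κ ∧ InClassT (theory c κ) ∧ SameModels (theory c κ) T₀ ∧
      (∃ e n₀ : ℕ, ∀ n ≥ n₀, ∀ (s : ℕ) (y : T), s ^ e ≤ n → y.size ≤ s →
        ∃ z : T, z.size ≤ s ∧ B (cin (rfn (P c κ) μ n).enc s y z) = T.leaf) ∧
      (∃ e n₀ : ℕ, ∀ n ≥ n₀, ∀ s : ℕ, s ^ e ≤ n → ¬ DescribedBy s (check V (rfn (P c κ) μ n))) ∧
      ((∃ e n₀ : ℕ, ∀ n ≥ n₀, ∀ m : ℕ, m ^ e ≤ n → ∀ π : List Step,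
          IsProof S π (rfn (P c κ) μ n) → 2 ^ m < (encProof π).size) ∨
        ∃ A : Set ℕ, InNE A ∧ ¬ InSigma2P A) ∧
      ((∃ e n₀ : ℕ, ∀ n ≥ n₀, ∀ m : ℕ, m ^ e ≤ n → ∀ (D : Code) (t : ℕ) (π : List Step),
          D.enc.size ≤ m → t ≤ 2 ^ m → Eval D (T.unary n) (encProof π) t →
          ¬ IsProof S π (rfn (P c κ) μ n)) ∨
        ∃ A : Set ℕ, InE A ∧ ¬ InSigma2P A) ∧
      ((∀ k : ℕ, ∃ n₀ : ℕ, ∀ n ≥ n₀, ∀ π : List Step,
          IsProof S π (rfn (P c κ) μ n) → n ^ k < (encProof π).size) ∨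
        ∃ A : Set ℕ, InNE A ∧ ∀ t : ℕ → ℕ, SubexpBound t → ¬ InSigma2Time t A) := by
  have i := PolyTime.id
  obtain ⟨B₀, h01, h02, h03⟩ := desc_cert (S := S) hV
  obtain ⟨B₁, h11, h12, h13⟩ := certs_if (S := S) (N := NL S) (ext := id) i NL_sound
    (C := fun t => ∃ k : ℕ, t = fun m => (m + 2) ^ k)
    (by rintro t ⟨k, rfl⟩; exact constructible_pow k)
  obtain ⟨B₂, h21, h22, h23⟩ := certs_if (S := S) (N := NT S) (ext := fun X => X.right.right)
    i.right.right NT_sound (C := fun t => ∃ k : ℕ, t = fun m => (m + 2) ^ k)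
    (by rintro t ⟨k, rfl⟩; exact constructible_pow k)
  obtain ⟨B₃, h31, h32, h33⟩ := certs_if (S := S) (N := NL S) (ext := id) i NL_sound
    (C := SubexpBound) (fun t ht => ht.1)
  obtain ⟨c, κ, hh, hT, hm, h⟩ := no_cert_list μ hμ P hP S T₀ hS hT₀ [B, B₀, B₁, B₂, B₃] (by
    intro B' hB'
    simp only [List.mem_cons, List.not_mem_nil, or_false] at hB'
    rcases hB' with rfl | rfl | rfl | rfl | rfl
    · exact ⟨hB, hsound⟩
    · exact ⟨h01, h02⟩
    · exact ⟨h11, h12⟩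
    · exact ⟨h21, h22⟩
    · exact ⟨h31, h32⟩)
  obtain ⟨C, hC⟩ := rfn_lin (P c κ) μ
  refine ⟨c, κ, hh, hT, hm, ?_, ?_, ?_, ?_, ?_⟩
  · obtain ⟨e, n₀, h0⟩ := h B (by simp)
    refine ⟨e, n₀, fun n hn s y hs hy => ?_⟩
    by_contra hcon
    push Not at hcon
    exact h0 n hn s hs ⟨y, hy, hcon⟩
  · obtain ⟨e, n₀, h0⟩ := h B₀ (by simp)
    obtain ⟨n₁, hn₁⟩ := arith3 e
    exact ⟨2 * e, max n₀ n₁, fun n hn s hs hd => h0 n ((le_max_left _ _).trans hn) _
      (hn₁ n ((le_max_right _ _).trans hn) s hs) (h03 _ s hd)⟩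
  · by_cases hNE : ∃ A : Set ℕ, InNE A ∧ ¬ InSigma2P A
    · exact Or.inr hNE
    · left
      push Not at hNE
      obtain ⟨k, hk⟩ := hNE _ (NL_inNE hS)
      obtain ⟨t, ⟨k', rfl⟩, ht⟩ := h13 ⟨_, ⟨k, rfl⟩, hk⟩
      obtain ⟨e, n₀, h0⟩ := h B₁ (by simp)
      obtain ⟨E, n₁, hn₁⟩ := arithB e k' C
      refine ⟨E, max n₀ n₁, fun n hn m hm π hπ => ?_⟩
      by_contra hcon
      push Not at hcon
      have h1 := hC n
      refine h0 n ((le_max_left _ _).trans hn) _ (hn₁ n ((le_max_right _ _).trans hn) m hm) ?_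
      refine ht _ (rfn (P c κ) μ n).enc (m + C * (n.size + 1) + 4) _ rfl (by omega)
        (mem_NL (by omega) hπ (hcon.trans (Nat.pow_le_pow_right (by norm_num) (by omega)))) le_rfl
  · by_cases hE : ∃ A : Set ℕ, InE A ∧ ¬ InSigma2P A
    · exact Or.inr hE
    · left
      push Not at hE
      obtain ⟨k, hk⟩ := hE _ (NT_inE hS)
      obtain ⟨t, ⟨k', rfl⟩, ht⟩ := h23 ⟨_, ⟨k, rfl⟩, hk⟩
      obtain ⟨e, n₀, h0⟩ := h B₂ (by simp)
      obtain ⟨E, n₁, hn₁⟩ := arithB e k' (C + 10)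
      refine ⟨E, max n₀ n₁, fun n hn m hm D t π hD htm hev hπ => ?_⟩
      have h1 := hC n
      have h2 := bl_size n
      have h3 : (T.node D.enc (T.node (bl n) (rfn (P c κ) μ n).enc)).size + 3 ≤
          m + (C + 10) * (n.size + 1) + 4 := by
        simp only [T.size]
        have : (C + 10) * (n.size + 1) = C * (n.size + 1) + 10 * (n.size + 1) := by ring
        omega
      refine h0 n ((le_max_left _ _).trans hn) _ (hn₁ n ((le_max_right _ _).trans hn) m hm) ?_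
      refine ht _ (T.node D.enc (T.node (bl n) (rfn (P c κ) μ n).enc))
        (m + (C + 10) * (n.size + 1) + 4) _ rfl h3
        (mem_NT h3 hπ hev (htm.trans (Nat.pow_le_pow_right (by norm_num) (by omega)))) le_rfl
  · by_cases hNE : ∃ A : Set ℕ, InNE A ∧ ∀ t : ℕ → ℕ, SubexpBound t → ¬ InSigma2Time t A
    · exact Or.inr hNE
    · left
      push Not at hNE
      obtain ⟨t, ht, hsub⟩ := h33 (hNE _ (NL_inNE hS))
      obtain ⟨e, n₀, h0⟩ := h B₃ (by simp)
      intro k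
      obtain ⟨n₁, hn₁⟩ := arithC e (C + k + 1) (by omega) t ht.2
      refine ⟨max n₀ n₁, fun n hn π hπ => ?_⟩
      by_contra hcon
      push Not at hcon
      have h1 := hC n
      have h3 : n ^ k ≤ 2 ^ (k * n.size) := by
        calc n ^ k ≤ (2 ^ n.size) ^ k := Nat.pow_le_pow_left (Nat.lt_size_self n).le k
          _ = 2 ^ (k * n.size) := by rw [← pow_mul, mul_comm]
      have h4 : (C + k + 1) * (n.size + 1) = C * (n.size + 1) + k * n.size + k + (n.size + 1) := by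
        ring
      refine h0 n ((le_max_left _ _).trans hn) _ (hn₁ n ((le_max_right _ _).trans hn)) ?_
      refine hsub _ (rfn (P c κ) μ n).enc ((C + k + 1) * (n.size + 1) + 4) _ rfl (by omega)
        (mem_NL (by omega) hπ ((hcon.trans h3).trans
          (Nat.pow_le_pow_right (by norm_num) (by omega)))) le_rfl

end Pool.Agent.LGD
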