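import Pool.Agent.LGC.GenS

set_option autoImplicit false

/-!
# MP_5b54e3_co: general set sizes. The numerical conditions.
-/

namespace Pool.Agent.LGD

open Finset Pool.Agent.LGC

/-- the basic inequalities between `r = N / t`, `lam = log r` and `rho = r ^ e` -/
structure Par (e lam rho r t N : ℝ) : Prop where
  e0 : 0 < e
  e1 : e ≤ 1 / 20
  lam4 : 4 ≤ lam
  hrho : rho = Real.exp (e * lam)
  rho1 : 1000 * lam ≤ e * rho
  hr : rho ^ 20 ≤ r
  ht : rho ^ 10 ≤ t
  hN : N = r * t

namespace Par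

variable {e lam rho r t N : ℝ} (P : Par e lam rho r t N)
include P

theorem rho_ge : 1000 ≤ rho := by
  have h1 := P.rho1
  have h2 := P.e0
  have h3 := P.e1
  have h4 := P.lam4
  have h5 : 0 < rho := by rw [P.hrho]; exact Real.exp_pos _
  nlinarith

theorem rho_lam : 1000 * lam ≤ rho := by
  have h1 := P.rho1
  have h3 := P.e1
  have h5 := P.rho_ge
  nlinarith

theorem t_ge : 1000 ≤ t := by
  have h := P.rho_ge
  have h2 : rho ≤ rho ^ 10 := le_self_pow₀ (by linarith) (by norm_num)
  linarith [P.ht]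

theorem r_ge : 1000 ≤ r := by
  have h := P.rho_ge
  have h2 : rho ≤ rho ^ 20 := le_self_pow₀ (by linarith) (by norm_num)
  linarith [P.hr]

theorem N_ge : 1000 ≤ N := by
  have h1 := P.t_ge
  have h2 := P.r_ge
  rw [P.hN]
  nlinarith

/-- the density -/
theorem p_pos : 0 < e * lam / t := by
  have h1 := P.t_ge
  have h2 := P.e0
  have h3 := P.lam4
  have : 0 < lam := by linarith
  positivity

theorem p_small : e * lam / t ≤ 1 / 20 := by
  have h1 := P.t_ge
  have h2 := P.e0
  have h3 := P.lam4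
  have h4 := P.rho_lam
  have h5 := P.rho_ge
  have h6 : rho ≤ rho ^ 10 := le_self_pow₀ (by linarith) (by norm_num)
  have h7 := P.ht
  have h8 := P.e1
  rw [div_le_div_iff₀ (by linarith) (by norm_num)]
  nlinarith

theorem eta_pos : 0 < 1 / lam := by
  have h3 := P.lam4
  have : 0 < lam := by linarith
  positivity

theorem eta_small : 1 / lam ≤ 1 / 4 := by
  have h3 := P.lam4
  exact one_div_le_one_div_of_le (by norm_num) h3

theorem c4 : 10 * (1 / lam) * (e * lam / t) * t ≤ 1 := by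
  have h1 := P.t_ge
  have h3 := P.lam4
  have h8 := P.e1
  have hl : lam ≠ 0 := by linarith
  have ht : t ≠ 0 := by linarith
  have : 10 * (1 / lam) * (e * lam / t) * t = 10 * e := by
    field_simp
  rw [this]
  linarith

theorem c5 : r / rho ^ 4 ≤ 1 / lam * (e * lam / t) * (N / rho ^ 3) := by
  have h1 := P.t_ge
  have h3 := P.lam4
  have h5 := P.rho_ge
  have hr := P.r_ge
  have hl : lam ≠ 0 := by linarith
  have ht : t ≠ 0 := by linarith
  have h9 : 0 < rho := by linarith
  have : 1 / lam * (e * lam / t) * (N / rho ^ 3) = e * r / rho ^ 3 := by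
    rw [P.hN]
    field_simp
  rw [this, div_le_div_iff₀ (by positivity) (by positivity)]
  have h10 : 1 ≤ e * rho := by linarith [P.rho1]
  have h11 : e * r * rho ^ 4 = (e * rho) * (r * rho ^ 3) := by ring
  rw [h11]
  have h12 : 0 ≤ r * rho ^ 3 := by positivity
  nlinarith

theorem c6 : 1 ≤ N / rho ^ 3 := by
  have h5 := P.rho_ge
  have h9 : 0 < rho := by linarith
  rw [le_div_iff₀ (by positivity), one_mul, P.hN]
  have h1 := P.t_ge
  have h2 : rho ^ 3 ≤ rho ^ 20 := pow_le_pow_right₀ (by linarith) (by norm_num)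
  have hr := P.hr
  have hr' := P.r_ge
  nlinarith

/-- the survival probability -/
theorem surv (k : ℕ) (hk : (k : ℝ) = t) :
    9 / 10 / rho ^ 2 ≤ (1 - (1 + 1 / lam) * (e * lam / t)) ^ k := by
  have h1 := P.t_ge
  have h3 := P.lam4
  have hp := P.p_pos
  have hp2 := P.p_small
  have hη := P.eta_pos
  have hη2 := P.eta_small
  have he := P.e0
  have he1 := P.e1
  have hl : lam ≠ 0 := by linarith
  have ht : t ≠ 0 := by linarith
  obtain ⟨a, ha⟩ : ∃ a : ℝ, a = (1 + 1 / lam) * (e * lam / t) := ⟨_, rfl⟩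
  rw [← ha]
  have ha0 : 0 ≤ a := by rw [ha]; positivity
  have ha1 : a ≤ 1 / 2 := by
    rw [ha]
    nlinarith
  have hk2 : a * k = e * lam + e := by
    rw [ha, hk]
    field_simp
  have h4 : Real.exp (-(2 * a)) ≤ 1 - a := by
    have h5 := Real.add_one_le_exp (2 * a)
    rw [Real.exp_neg]
    have h6 : 0 < Real.exp (2 * a) := Real.exp_pos _
    rw [inv_le_iff_one_le_mul₀ h6]
    nlinarith
  have h5 : Real.exp (-(2 * a)) ^ k ≤ (1 - a) ^ k :=
    pow_le_pow_left₀ (Real.exp_pos _).le h4 k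
  refine le_trans ?_ h5
  rw [← Real.exp_nat_mul]
  have h6 : (k : ℝ) * -(2 * a) = -(e * lam) + -(e * lam) + -(2 * e) := by
    have : (k : ℝ) * -(2 * a) = -2 * (a * k) := by ring
    rw [this, hk2]
    ring
  rw [h6, Real.exp_add, Real.exp_add, Real.exp_neg (e * lam), ← P.hrho]
  have h7 : 9 / 10 ≤ Real.exp (-(2 * e)) := by
    have := Real.one_sub_le_exp_neg (2 * e)
    linarith
  have h8 : 0 < rho := by rw [P.hrho]; exact Real.exp_pos _
  have h9 : 9 / 10 / rho ^ 2 = rho⁻¹ * rho⁻¹ * (9 / 10) := by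
    field_simp
  rw [h9]
  exact mul_le_mul_of_nonneg_left h7 (by positivity)

theorem c7 (k : ℕ) (hk : (k : ℝ) = t) :
    N / rho ^ 3 ≤ N / 4 * (1 - (1 + 1 / lam) * (e * lam / t)) ^ k := by
  have h := P.surv k hk
  have h5 := P.rho_ge
  have hN := P.N_ge
  refine le_trans ?_ (mul_le_mul_of_nonneg_left h (by linarith))
  have h9 : 0 < rho := by linarith
  have : N / 4 * (9 / 10 / rho ^ 2) = N * (9 / 40 * rho) / rho ^ 3 := by
    field_simp
    ring
  rw [this]
  apply div_le_div_of_nonneg_right _ (by positivity)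
  nlinarith

theorem c9 (k h : ℕ) (hk : (k : ℝ) = t) (hh : 256 * (k : ℝ) * h ≤ N ^ 2) :
    16 * (h : ℝ) ≤ r * N := by
  have h1 := P.t_ge
  have hr := P.r_ge
  rw [hk] at hh
  have h2 : N ^ 2 = t * (r * N) := by rw [P.hN]; ring
  rw [h2] at hh
  have h3 : t * (256 * (h : ℝ)) ≤ t * (r * N) := by linarith
  have h4 := le_of_mul_le_mul_left h3 (by linarith)
  have h5 : (0 : ℝ) ≤ h := Nat.cast_nonneg h
  linarith

theorem c10 (k : ℕ) (hk : (k : ℝ) = t) :
    (k : ℝ) * (1 + 32 * (k / N) * Real.exp (2 * (e * lam / t) * k) * (e * lam / t) *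
      (t * rho ^ 4) * r) ≤ N / 2 * (1 - (1 + 1 / lam) * (e * lam / t)) ^ k := by
  have h := P.surv k hk
  have h5 := P.rho_ge
  have hN := P.N_ge
  have h1 := P.t_ge
  have hr := P.r_ge
  have he := P.e0
  have he1 := P.e1
  have hl := P.lam4
  refine le_trans ?_ (mul_le_mul_of_nonneg_left h (by linarith))
  have h9 : 0 < rho := by linarith
  have ht : t ≠ 0 := by linarith
  have hr0 : r ≠ 0 := by linarith
  have h10 : Real.exp (2 * (e * lam / t) * k) = rho ^ 2 := by
    have : 2 * (e * lam / t) * k = e * lam + e * lam := by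
      rw [hk]
      field_simp
      ring
    rw [this, Real.exp_add, ← P.hrho]
    ring
  rw [h10, hk, P.hN]
  have h11 : t * (1 + 32 * (t / (r * t)) * rho ^ 2 * (e * lam / t) * (t * rho ^ 4) * r) =
      t * (1 + 32 * e * lam * rho ^ 6) := by
    field_simp
  have h12 : r * t / 2 * (9 / 10 / rho ^ 2) = t * (9 / 20 * (r / rho ^ 2)) := by
    field_simp
    ring
  rw [h11, h12]
  apply mul_le_mul_of_nonneg_left _ (by linarith)
  have h13 : rho ^ 18 ≤ r / rho ^ 2 := by
    rw [le_div_iff₀ (by positivity), ← pow_add]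
    exact P.hr
  have h14 : 32 * e * lam ≤ rho := by
    have := P.rho_lam
    nlinarith
  have h15 : 32 * e * lam * rho ^ 6 ≤ rho ^ 7 := by
    have := mul_le_mul_of_nonneg_right h14 (show 0 ≤ rho ^ 6 by positivity)
    calc 32 * e * lam * rho ^ 6 ≤ rho * rho ^ 6 := this
      _ = rho ^ 7 := by ring
  have h16 : (1 : ℝ) ≤ rho ^ 7 := one_le_pow₀ (by linarith)
  have h17 : 1000 * rho ^ 7 ≤ rho ^ 18 := by
    have h18 : rho ^ 8 ≤ rho ^ 18 := pow_le_pow_right₀ (by linarith) (by norm_num)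
    have h19 : rho ^ 8 = rho * rho ^ 7 := by ring
    have h20 : 1000 * rho ^ 7 ≤ rho * rho ^ 7 :=
      mul_le_mul_of_nonneg_right h5 (by positivity)
    linarith
  linarith

theorem u1 : N + 4 ≤ (1 / lam) ^ 2 * (e * lam / t) * (N / rho ^ 3) ^ 2 / 8 := by
  have h5 := P.rho_ge
  have hN := P.N_ge
  have h1 := P.t_ge
  have hr := P.r_ge
  have he := P.e0
  have hl := P.lam4
  have h9 : 0 < rho := by linarith
  have ht : t ≠ 0 := by linarith
  have hr0 : r ≠ 0 := by linarith
  have hl0 : 0 < lam := by linarith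
  have h10 : (1 / lam) ^ 2 * (e * lam / t) * (N / rho ^ 3) ^ 2 / 8 =
      N * (e * r / (8 * lam * rho ^ 6)) := by
    have : (N / rho ^ 3) ^ 2 = N * (r * t) / rho ^ 6 := by
      rw [← P.hN]
      field_simp
    rw [this]
    field_simp
  rw [h10]
  have h11 : 2 ≤ e * r / (8 * lam * rho ^ 6) := by
    rw [le_div_iff₀ (by positivity)]
    have h12 : 16 * lam ≤ e * rho := by
      have := P.rho1
      linarith
    have h13 : rho ^ 7 ≤ rho ^ 20 := pow_le_pow_right₀ (by linarith) (by norm_num)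
    have h14 : rho ^ 7 ≤ r := h13.trans P.hr
    calc 2 * (8 * lam * rho ^ 6) = 16 * lam * rho ^ 6 := by ring
      _ ≤ e * rho * rho ^ 6 := mul_le_mul_of_nonneg_right h12 (by positivity)
      _ = e * rho ^ 7 := by ring
      _ ≤ e * r := mul_le_mul_of_nonneg_left h14 he.le
  nlinarith

theorem u2a : t * rho ^ 4 + 1 ≤ 1 / lam * (N / rho ^ 3) / 2 := by
  have h5 := P.rho_ge
  have h1 := P.t_ge
  have hl := P.lam4
  have h9 : 0 < rho := by linarith
  have hl0 : 0 < lam := by linarith
  have h10 : (1 : ℝ) ≤ t * rho ^ 4 := by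
    have : (1 : ℝ) ≤ rho ^ 4 := one_le_pow₀ (by linarith)
    nlinarith
  have h11 : 2 * (t * rho ^ 4) ≤ 1 / lam * (N / rho ^ 3) / 2 := by
    have h12 : 1 / lam * (N / rho ^ 3) / 2 = N / (2 * lam * rho ^ 3) := by
      field_simp
    rw [h12, le_div_iff₀ (by positivity), P.hN]
    have h13 : 4 * lam ≤ rho := by linarith [P.rho_lam]
    have h14 : rho ^ 8 ≤ r := (pow_le_pow_right₀ (by linarith) (by norm_num)).trans P.hr
    calc 2 * (t * rho ^ 4) * (2 * lam * rho ^ 3) = t * (rho ^ 7 * (4 * lam)) := by ring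
      _ ≤ t * (rho ^ 7 * rho) := by
          apply mul_le_mul_of_nonneg_left _ (by linarith)
          exact mul_le_mul_of_nonneg_left h13 (by positivity)
      _ = t * rho ^ 8 := by ring
      _ ≤ t * r := mul_le_mul_of_nonneg_left h14 (by linarith)
      _ = r * t := by ring
  linarith

theorem u2b : 2 * N + 4 ≤ (1 / lam) ^ 2 * (e * lam / t) * (t * rho ^ 4) / 16 * (N / rho ^ 3) := by
  have h5 := P.rho_ge
  have hN := P.N_ge
  have h1 := P.t_ge
  have he := P.e0
  have hl := P.lam4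
  have h9 : 0 < rho := by linarith
  have ht : t ≠ 0 := by linarith
  have hl0 : 0 < lam := by linarith
  have h10 : (1 / lam) ^ 2 * (e * lam / t) * (t * rho ^ 4) / 16 * (N / rho ^ 3) =
      N * (e * rho / (16 * lam)) := by
    field_simp
  rw [h10]
  have h11 : 3 ≤ e * rho / (16 * lam) := by
    rw [le_div_iff₀ (by positivity)]
    linarith [P.rho1]
  nlinarith

theorem u3 (δ : ℝ) (hδ : e = δ / 10) (hNt : N ≤ t ^ (1 / δ)) (m : ℕ)
    (hm : r / rho ^ 4 ≤ m) :
    12 * (N * N * (3 * (N * (e * lam / t) ^ 2) / m) ^ m) ≤ 1 := by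
  have h5 := P.rho_ge
  have hN := P.N_ge
  have h1 := P.t_ge
  have hr := P.r_ge
  have he := P.e0
  have hl := P.lam4
  have h9 : 0 < rho := by linarith
  have ht : t ≠ 0 := by linarith
  have ht0 : 0 < t := by linarith
  have hl0 : 0 < lam := by linarith
  have hδ0 : 0 < δ := by linarith
  have hm1 : 0 < r / rho ^ 4 := by positivity
  have hm0 : (0 : ℝ) < m := hm1.trans_le hm
  obtain ⟨T, hT⟩ : ∃ T : ℝ, T = Real.log t := ⟨_, rfl⟩
  have htT : t = Real.exp T := by rw [hT, Real.exp_log ht0]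
  have hT1 : 10 * (e * lam) ≤ T := by
    rw [hT, Real.le_log_iff_exp_le ht0]
    have : Real.exp (10 * (e * lam)) = rho ^ 10 := by
      rw [P.hrho, ← Real.exp_nat_mul]
      norm_num
    rw [this]
    exact P.ht
  have hT3 : 3 ≤ T := by
    have h6 : 3 ≤ Real.log 1000 := by
      rw [Real.le_log_iff_exp_le (by norm_num)]
      have h7 := Real.exp_one_lt_d9
      have h8 : Real.exp 3 = Real.exp 1 ^ 3 := by
        rw [← Real.exp_nat_mul]
        norm_num
      rw [h8]
      have h10 : Real.exp 1 ^ 3 ≤ (3 : ℝ) ^ 3 :=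
        pow_le_pow_left₀ (Real.exp_pos _).le (by linarith) 3
      linarith
    rw [hT]
    exact h6.trans (Real.log_le_log (by norm_num) h1)
  -- the base
  obtain ⟨q, hq⟩ : ∃ q : ℝ, q = 3 * (N * (e * lam / t) ^ 2) / m := ⟨_, rfl⟩
  have hq0 : 0 ≤ q := by rw [hq]; positivity
  have hqe : q ≤ rho ^ 6 / t := by
    rw [hq]
    have a1 : 3 * (N * (e * lam / t) ^ 2) / m ≤ 3 * (N * (e * lam / t) ^ 2) / (r / rho ^ 4) :=
      div_le_div_of_nonneg_left (by positivity) hm1 hm
    refine a1.trans ?_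
    have a2 : 3 * (N * (e * lam / t) ^ 2) / (r / rho ^ 4) = 3 * (e * lam) ^ 2 * rho ^ 4 / t := by
      rw [P.hN]
      field_simp
    rw [a2]
    apply div_le_div_of_nonneg_right _ ht0.le
    have a3 : e * lam ≤ rho / 2 := by
      have := P.rho_lam
      have := P.e1
      nlinarith
    have a4 : (e * lam) ^ 2 ≤ (rho / 2) ^ 2 := pow_le_pow_left₀ (by positivity) a3 2
    have a5 : 3 * (e * lam) ^ 2 ≤ rho ^ 2 := by nlinarith
    calc 3 * (e * lam) ^ 2 * rho ^ 4 ≤ rho ^ 2 * rho ^ 4 :=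
          mul_le_mul_of_nonneg_right a5 (by positivity)
      _ = rho ^ 6 := by ring
  have hqT : q ≤ Real.exp (-(2 / 5 * T)) := by
    refine hqe.trans ?_
    rw [htT, P.hrho, ← Real.exp_nat_mul, ← Real.exp_sub]
    apply Real.exp_le_exp.2
    push_cast
    linarith
  have hNT : N ≤ Real.exp (T / δ) := by
    refine hNt.trans (le_of_eq ?_)
    rw [htT, ← Real.exp_mul]
    congr 1
    ring
  have hmδ : 5 / δ + 3 ≤ m := by
    refine le_trans ?_ hm
    have b1 : rho ^ 16 ≤ r / rho ^ 4 := by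
      rw [le_div_iff₀ (by positivity), ← pow_add]
      exact P.hr
    have b2 : rho ≤ rho ^ 16 := le_self_pow₀ (by linarith) (by norm_num)
    refine le_trans ?_ (b2.trans b1)
    have b3 : 1000 * lam ≤ δ / 10 * rho := by
      rw [← hδ]
      exact P.rho1
    have b4 : 8 / δ ≤ rho := by
      rw [div_le_iff₀ hδ0]
      linarith
    have b5 : δ ≤ 1 := by
      have := P.e1
      linarith
    have b6 : (3 : ℝ) ≤ 3 / δ := by
      rw [le_div_iff₀ hδ0]
      linarith
    have b7 : 8 / δ = 5 / δ + 3 / δ := by ring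
    linarith
  rw [← hq]
  have hqm : q ^ m ≤ Real.exp (-(2 / 5 * T)) ^ m := pow_le_pow_left₀ hq0 hqT m
  have hfin : N * N * q ^ m ≤ Real.exp (-T) := by
    calc N * N * q ^ m ≤ Real.exp (T / δ) * Real.exp (T / δ) * Real.exp (-(2 / 5 * T)) ^ m := by
          apply mul_le_mul _ hqm (by positivity) (by positivity)
          exact mul_le_mul hNT hNT (by linarith) (by positivity)
      _ = Real.exp (T / δ + T / δ + m * (-(2 / 5 * T))) := by
          rw [← Real.exp_nat_mul, Real.exp_add, Real.exp_add]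
      _ ≤ Real.exp (-T) := by
          apply Real.exp_le_exp.2
          have c1 : (5 / δ + 3) * T ≤ m * T := mul_le_mul_of_nonneg_right hmδ (by linarith)
          have c2 : T / δ = (1 / δ) * T := by ring
          have c3 : (5 / δ + 3) * T = 5 * ((1 / δ) * T) + 3 * T := by ring
          rw [c3] at c1
          rw [c2]
          nlinarith
  have hexp : Real.exp (-T) ≤ 1 / 12 := by
    have d1 : Real.exp (-T) ≤ Real.exp (-3) := Real.exp_le_exp.2 (by linarith)
    refine d1.trans ?_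
    rw [Real.exp_neg, inv_eq_one_div]
    apply one_div_le_one_div_of_le (by norm_num)
    have d2 : Real.exp 3 = Real.exp 1 ^ 3 := by
      rw [← Real.exp_nat_mul]
      norm_num
    rw [d2]
    have d3 := Real.exp_one_gt_d9
    have d4 : (2.7 : ℝ) ^ 3 ≤ Real.exp 1 ^ 3 :=
      pow_le_pow_left₀ (by norm_num) (by linarith) 3
    norm_num at d4
    linarith
  linarith

end Par

/-- the parameters exist -/
theorem par_exists (δ : ℝ) (hδ0 : 0 < δ) (hδ1 : δ ≤ 1 / 2) :
    ∃ r₀ : ℝ, 1 < r₀ ∧ ∀ N t : ℝ, 1 ≤ t → r₀ * t ≤ N → N ≤ t ^ (1 / δ) →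
      Par (δ / 10) (Real.log (N / t)) (Real.exp (δ / 10 * Real.log (N / t))) (N / t) t N := by
  obtain ⟨e, he⟩ : ∃ e : ℝ, e = δ / 10 := ⟨_, rfl⟩
  have he0 : 0 < e := by rw [he]; positivity
  have he1 : e ≤ 1 / 20 := by rw [he]; linarith
  have hΛ : 4 ≤ 2000 / e ^ 3 := by
    rw [le_div_iff₀ (by positivity)]
    have : e ^ 3 ≤ (1 / 20) ^ 3 := pow_le_pow_left₀ he0.le he1 3
    norm_num at this
    linarith
  refine ⟨Real.exp (2000 / e ^ 3), ?_, ?_⟩
  · rw [← Real.exp_zero]
    exact Real.exp_lt_exp.2 (by linarith)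
  · intro N t ht hN hNt
    rw [← he]
    have ht0 : 0 < t := by linarith
    have hr : Real.exp (2000 / e ^ 3) ≤ N / t := by
      rw [le_div_iff₀ ht0]
      exact hN
    have hr0 : 0 < N / t := (Real.exp_pos _).trans_le hr
    have hlam : 2000 / e ^ 3 ≤ Real.log (N / t) := by
      rw [Real.le_log_iff_exp_le hr0]
      exact hr
    obtain ⟨lam, hl⟩ : ∃ lam : ℝ, lam = Real.log (N / t) := ⟨_, rfl⟩
    rw [← hl] at hlam ⊢
    have hl4 : 4 ≤ lam := hΛ.trans hlam
    have hl0 : 0 < lam := by linarith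
    have hrl : N / t = Real.exp lam := by rw [hl, Real.exp_log hr0]
    refine ⟨he0, he1, hl4, rfl, ?_, ?_, ?_, ?_⟩
    · have h1 := Real.quadratic_le_exp_of_nonneg (x := e * lam) (by positivity)
      have h2 : 1000 * lam ≤ e * ((e * lam) ^ 2 / 2) := by
        rw [div_le_iff₀ (by positivity)] at hlam
        nlinarith
      have h3 : 0 < e * lam := by positivity
      nlinarith
    · rw [hrl, ← Real.exp_nat_mul]
      apply Real.exp_le_exp.2
      push_cast
      nlinarith
    · rw [← Real.exp_nat_mul, ← Real.le_log_iff_exp_le ht0]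
      have hN0 : 0 < N := by
        have := mul_pos (Real.exp_pos (2000 / e ^ 3)) ht0
        linarith
      have h1 : Real.log N ≤ 1 / δ * Real.log t := by
        have h2 := Real.log_le_log hN0 hNt
        rwa [Real.log_rpow ht0] at h2
      have h3 : lam = Real.log N - Real.log t := by
        rw [hl, Real.log_div hN0.ne' ht0.ne']
      have h4 : 0 ≤ Real.log t := Real.log_nonneg ht
      have h5 : δ * Real.log N ≤ Real.log t := by
        have h6 := mul_le_mul_of_nonneg_left h1 hδ0.le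
        have h7 : δ * (1 / δ * Real.log t) = Real.log t := by
          field_simp
        linarith
      have h8 : δ = 10 * e := by rw [he]; ring
      rw [h8] at h5
      push_cast
      nlinarith
    · field_simp

end Pool.Agent.LGD
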