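import Pool.Agent.LGD.Gen

/-!
# The sets of assertions
-/

set_option autoImplicit false

namespace Pool.Agent.LGD

open Pool.Agent.H19 Pool.Agent.H19.T Pool.Agent.PO Pool.Agent.S2L Pool.Agent.RU Pool.Agent.Q2E

/-- The number `x` codes a formula that has an `S`-proof of size at most `x`. -/
def NL (S : Set Fm) : Set ℕ :=
  {x | ∃ w : T, w.size ≤ x ∧ IsProof S (decProof w) (decFm (dN x))}

theorem NL_inNE {S : Set Fm} (hS : InClassT S) : InNE (NL S) := by
  have i := PolyTime.id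
  have hx : PolyTime (fun v : T => dN v.left.len) := dN_polyTime (PolyNat.len i.left).toN
  obtain ⟨W, hW, h⟩ := (PolyDec.le (PolyNat.size i.right) (PolyNat.len i.left)).and
    ((isProof_polyDec (DecTh.of_inClassT hS)).comp (i.right.node hx))
  refine ⟨W, 1, hW, fun x => ?_⟩
  have e : ∀ w : T, W (T.node (T.unary x) w) ≠ T.leaf ↔
      w.size ≤ x ∧ IsProof S (decProof w) (decFm (dN x)) := by
    intro w
    rw [← h (T.node (T.unary x) w)]
    simp only [T.left_node, T.right_node, T.len_unary]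
  constructor
  · rintro ⟨w, h1, h2⟩
    exact ⟨w, by rw [pow_one]; omega, (e w).2 ⟨h1, h2⟩⟩
  · rintro ⟨w, -, h1⟩
    exact ⟨w, (e w).1 h1⟩

theorem NL_sound {S : Set Fm} : ∀ x ∈ NL S, Provable S (decFm (id (dN x))) := by
  rintro x ⟨w, -, h⟩
  exact ⟨_, h⟩

/-- The number `x` codes a program, a number `n` and a formula, and the output of the program on
`n`, computed at cost at most `x`, is an `S`-proof of the formula. -/
def NT (S : Set Fm) : Set ℕ :=
  {x | ∃ n < x + 1, (dN x).right.left = bl n ∧ IsProof S (decProof (simulF (T.node (dN x).left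
    (T.node (T.unary n) (T.unary x)))).right) (decFm (dN x).right.right)}

theorem NT_inE {S : Set Fm} (hS : InClassT S) : InE (NT S) := by
  have i := PolyTime.id
  have hx : PolyTime (fun v : T => dN v.left.len) := dN_polyTime (PolyNat.len i.left).toN
  have h1 : PolyDec (fun v : T => (dN v.left.len).right.left = bl v.right.len ∧
      IsProof S (decProof (simulF (T.node (dN v.left.len).left
        (T.node (T.unary v.right.len) (T.unary v.left.len)))).right)
        (decFm (dN v.left.len).right.right)) :=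
    (PolyDec.eq hx.right.left (PolyNat.len i.right).toN).and
      ((isProof_polyDec (DecTh.of_inClassT hS)).comp ((SIMF_thm.1.comp (hx.left.node
        ((PolyNat.len i.right).unary.node (PolyNat.len i.left).unary))).right.node
          hx.right.right))
  have h2 := bex h1 (n := fun w => w.len + 1) ((PolyNat.len i).add (PolyNat.const 1))
  obtain ⟨f, hf, h⟩ := h2
  refine ⟨f, hf, fun x => ?_⟩
  have := h (T.unary x)
  beta_reduce at this
  simp only [T.left_node, T.right_node, T.len_unary] at this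
  exact this

theorem NT_sound {S : Set Fm} : ∀ x ∈ NT S, Provable S (decFm (dN x).right.right) := by
  rintro x ⟨n, -, -, h⟩
  exact ⟨_, h⟩

/-- Membership in `NL`. -/
theorem mem_NL {S : Set Fm} {φ : Fm} {m : ℕ} (hm : φ.enc.size + 3 ≤ m) {π : List Step}
    (h : IsProof S π φ) (hs : (encProof π).size ≤ 2 ^ (m - 1)) : cN φ.enc m ∈ NL S := by
  refine ⟨encProof π, hs.trans ?_, ?_⟩
  · unfold cN
    omega
  · rw [dN_cN hm, decFm_enc, decProof_enc]
    exact h

/-- Membership in `NT`. -/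
theorem mem_NT {S : Set Fm} {φ : Fm} {m n t : ℕ} {D : Code}
    (hm : (T.node D.enc (T.node (bl n) φ.enc)).size + 3 ≤ m) {π : List Step}
    (h : IsProof S π φ) (hD : Eval D (T.unary n) (encProof π) t) (ht : t ≤ 2 ^ (m - 1)) :
    cN (T.node D.enc (T.node (bl n) φ.enc)) m ∈ NT S := by
  have hx : 2 ^ (m - 1) ≤ cN (T.node D.enc (T.node (bl n) φ.enc)) m := by
    unfold cN
    omega
  have hn : n < 2 ^ (m - 1) := by
    refine (Nat.lt_size_self n).trans_le (Nat.pow_le_pow_right (by norm_num) ?_)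
    have h1 := size_le_bl n
    simp only [T.size] at hm
    omega
  refine ⟨n, by omega, ?_, ?_⟩
  · rw [dN_cN hm]
    rfl
  · rw [dN_cN hm]
    simp only [T.left_node, T.right_node]
    rw [SIMF_thm.2.1 D _ _ t _ hD (by omega), T.right_node, decFm_enc, decProof_enc]
    exact h

/-! ### Arithmetic -/

theorem arithA (c C : ℕ) : ∃ n₀ : ℕ, ∀ n ≥ n₀, ∀ m : ℕ, m ^ (2 * (2 * c + 1)) ≤ n →
    (m + C * (n.size + 1) + 6) ^ c ≤ n := by
  obtain ⟨n₀, hn₀⟩ := arith2 (2 * c) (C + 6)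
  refine ⟨n₀, fun n hn m hm => ?_⟩
  have h1 := pow_le_of_size (hn₀ n hn m hm)
  refine le_trans ?_ h1
  rw [pow_mul]
  refine Nat.pow_le_pow_left ?_ c
  nlinarith [Nat.zero_le m, Nat.zero_le (n.size * C), Nat.zero_le (m * C),
    Nat.zero_le (m * n.size), Nat.zero_le (n.size * n.size), Nat.zero_le (m * m), Nat.zero_le (C * C)]

theorem arithB (e k C : ℕ) : ∃ E n₀ : ℕ, ∀ n ≥ n₀, ∀ m : ℕ, m ^ E ≤ n →
    (3 * (m + C * (n.size + 1) + 4) + 3 * (m + C * (n.size + 1) + 4 + 2) ^ k + 6) ^ e ≤ n := by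
  obtain ⟨n₀, h⟩ := arithA ((k + 5) * e) C
  refine ⟨_, n₀, fun n hn m hm => le_trans ?_ (h n hn m hm)⟩
  rw [pow_mul]
  refine Nat.pow_le_pow_left ?_ e
  obtain ⟨a, ha⟩ : ∃ a, a = m + C * (n.size + 1) + 6 := ⟨_, rfl⟩
  have e1 : m + C * (n.size + 1) + 4 + 2 = a := by omega
  have e2 : m + C * (n.size + 1) + 4 ≤ a := by omega
  rw [e1]
  have h2 : 6 ≤ a := by omega
  have h3 : 1 ≤ a ^ k := Nat.one_le_pow _ _ (by omega)
  have h4 : a ^ (k + 5) = a ^ k * a ^ 5 := pow_add a k 5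
  have h5 : a ^ 5 = a * a ^ 4 := by ring
  have h6 : 1296 ≤ a ^ 4 := by
    calc 1296 = 6 ^ 4 := by norm_num
      _ ≤ a ^ 4 := Nat.pow_le_pow_left h2 4
  have h7 : a * 1296 ≤ a ^ 5 := by
    rw [h5]
    exact Nat.mul_le_mul_left _ h6
  have h8 : a ^ k * (a * 1296) ≤ a ^ (k + 5) := by
    rw [h4]
    exact Nat.mul_le_mul_left _ h7
  have h9 : a ^ k * (6 * 1296) ≤ a ^ k * (a * 1296) :=
    Nat.mul_le_mul_left _ (Nat.mul_le_mul_right _ h2)
  have h10 : 1 * (a * 1296) ≤ a ^ k * (a * 1296) := Nat.mul_le_mul_right _ h3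
  omega

theorem arithC (e C : ℕ) (hC : 0 < C) (t : ℕ → ℕ) (ht : ∀ e : ℕ, ∃ m₀ : ℕ, ∀ m ≥ m₀, t m ^ e ≤ 2 ^ m) :
    ∃ n₀ : ℕ, ∀ n ≥ n₀, (3 * (C * (n.size + 1) + 4) +
      3 * t (C * (n.size + 1) + 4) + 6) ^ e ≤ n := by
  obtain ⟨D, hD⟩ : ∃ D, D = C + 4 := ⟨_, rfl⟩
  obtain ⟨m₀, hm₀⟩ := ht (4 * e * D)
  obtain ⟨n₁, hn₁⟩ := arithA (2 * e) C
  refine ⟨max (max n₁ (2 ^ m₀)) 4, fun n hn => ?_⟩
  have hn1 : n₁ ≤ n := ((le_max_left _ _).trans (le_max_left _ _)).trans hn
  have hn2 : 2 ^ m₀ ≤ n := ((le_max_right _ _).trans (le_max_left _ _)).trans hn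
  have hn3 : 4 ≤ n := (le_max_right _ _).trans hn
  have h1 := hn₁ n hn1 0 (by rw [zero_pow (by omega)]; omega)
  rw [Nat.zero_add] at h1
  obtain ⟨m, hm⟩ : ∃ m, m = C * (n.size + 1) + 4 := ⟨_, rfl⟩
  have e1 : C * (n.size + 1) + 6 = m + 2 := by omega
  rw [e1] at h1
  rw [← hm]
  obtain ⟨q, hq⟩ : ∃ q, q = t m := ⟨_, rfl⟩
  rw [← hq]
  rcases Nat.lt_or_ge q (m + 2) with h | h
  · refine le_trans ?_ h1
    rw [pow_mul]
    refine Nat.pow_le_pow_left ?_ e
    have : 4 ≤ m := by omega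
    nlinarith
  · have h2 : m₀ ≤ m := by
      have h3 : m₀ < n.size := Nat.lt_size.2 hn2
      nlinarith
    have h3 := hm₀ m h2
    rw [← hq] at h3
    have h4 : m ≤ D * (n.size + 1) := by
      rw [hm, hD]
      nlinarith [Nat.zero_le n.size]
    have h5 : (q ^ (4 * e)) ^ D ≤ (2 ^ (n.size + 1)) ^ D := by
      rw [← pow_mul, ← pow_mul, mul_comm (n.size + 1) D]
      exact h3.trans (Nat.pow_le_pow_right (by norm_num) h4)
    have h6 : q ^ (4 * e) ≤ 2 ^ (n.size + 1) := by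
      exact (Nat.pow_le_pow_iff_left (by omega)).1 h5
    have h7 : 2 ^ (n.size - 1) ≤ n := by
      have h8 : n.size - 1 < n.size := by
        have : 0 < n.size := Nat.size_pos.2 (by omega)
        omega
      exact Nat.lt_size.1 h8
    have h8 : 2 ^ (n.size + 1) = 4 * 2 ^ (n.size - 1) := by
      have : 0 < n.size := Nat.size_pos.2 (by omega)
      have h9 : n.size + 1 = (n.size - 1) + 2 := by omega
      rw [h9, pow_add]
      ring
    have h9 : (q ^ (2 * e)) ^ 2 ≤ n ^ 2 := by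
      calc (q ^ (2 * e)) ^ 2 = q ^ (4 * e) := by rw [← pow_mul]; congr 1; ring
        _ ≤ 4 * n := by omega
        _ ≤ n ^ 2 := by nlinarith
    have h10 : q ^ (2 * e) ≤ n := (Nat.pow_le_pow_iff_left (by norm_num)).1 h9
    refine le_trans ?_ h10
    rw [pow_mul]
    refine Nat.pow_le_pow_left ?_ e
    have h11 : 6 ≤ q := by omega
    nlinarith

end Pool.Agent.LGD
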