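import Pool.Agent.LGD.Num

set_option autoImplicit false

/-!
# MP_5b54e3_co: general set sizes. The upper bound.
-/

namespace Pool.Agent.LGD

open Finset Pool.Agent.LGC

/-- Every set of `s` vertices of the graph `G` on `n` vertices contains a clique of size `t`. -/
def Loc (s t n : ℕ) (G : SimpleGraph (Fin n)) : Prop :=
  ∀ S : Finset (Fin n), S.card = s → ∃ T ⊆ S, T.card = t ∧ G.IsClique (T : Set (Fin n))

/-- In the random graph of density `e log (|S| / t) / (t K)` the set `S` has no independent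
set of size `t` with probability at most `K ^ (- |S|^2 / (256 t))`. -/
theorem g_bad (δ : ℝ) (hδ0 : 0 < δ) {e lam rho r : ℝ} (hδe : e = δ / 10)
    {V : Type} [Fintype V] (S : Finset V) (k : ℕ) (K : ℝ)
    (P : Par e lam rho r (k : ℝ) (S.card : ℝ)) (hK : 1 ≤ K)
    (hNt : (S.card : ℝ) ≤ (k : ℝ) ^ (1 / δ)) :
    Pr (e * lam / k / K) (fun A : Finset (Sym2 V) => ¬ ∃ I ⊆ S, I.card = k ∧ Ind (gr A) ∅ I) *
      K ^ (S.card ^ 2 / (256 * k)) ≤ 4 / 3 := by
  classical
  set h : ℕ := S.card ^ 2 / (256 * k) with hh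
  have hh2 : 256 * (k : ℝ) * h ≤ (S.card : ℝ) ^ 2 := by
    have := Nat.div_mul_le_self (S.card ^ 2) (256 * k)
    have h' : 256 * k * h ≤ S.card ^ 2 := by
      rw [mul_comm]
      exact this
    exact_mod_cast h'
  have hrho := P.rho_ge
  have hrho0 : 0 < rho := by linarith
  have hr := P.r_ge
  have ht := P.t_ge
  have hNge := P.N_ge
  have hKpos : (0 : ℝ) < K := lt_of_lt_of_le one_pos hK
  have hpp := P.p_pos
  have hps := P.p_small
  have hηp := P.eta_pos
  have hηs := P.eta_small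
  have hp0 : 0 < e * lam / k / K := div_pos hpp hKpos
  have hple : e * lam / k / K ≤ e * lam / k := div_le_self hpp.le hK
  have hp1 : e * lam / k < 1 := by linarith
  have hp1' : e * lam / k / K ≤ 1 := by linarith
  have hiso := iso (Sym2 V) (e * lam / k / K) (e * lam / k) hp0 hple hp1
    (fun A => ¬ ∃ I ⊆ S, I.card = k ∧ Ind (gr A) ∅ I) (bad_incr S k) h
  have hratio : (e * lam / k) / (e * lam / k / K) = K := by
    rw [div_div_eq_mul_div, mul_comm, mul_div_assoc, div_self hpp.ne', mul_one]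
  rw [hratio] at hiso
  -- the uniform graphs are good
  have hU : ∀ A : Finset (Sym2 V),
      Unif (gr A) S (e * lam / k) (1 / lam) ((S.card : ℝ) / rho ^ 3) ((k : ℝ) * rho ^ 4)
        (r / rho ^ 4) →
      ∀ B, A ⊆ B → B.card ≤ A.card + h → ¬ ¬ ∃ I ⊆ S, I.card = k ∧ Ind (gr B) ∅ I := by
    intro A hA B hAB hBA
    rw [not_not]
    have hE : (B \ A).card ≤ h := by
      rw [Finset.card_sdiff_of_subset hAB]
      exact Nat.sub_le_iff_le_add'.2 hBA
    obtain ⟨I, hI1, hI2, hI3⟩ := det V (gr A) S (B \ A) k h (e * lam / k) (1 / lam)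
      ((S.card : ℝ) / rho ^ 3) ((k : ℝ) * rho ^ 4) (r / rho ^ 4) r hE hpp (by linarith) hηp.le hηs
      P.c4 P.c5 P.c6 (P.c7 k rfl) hh2 (by linarith) (P.c9 k h rfl hh2) (by positivity)
      (P.c10 k rfl) hA
    exact ⟨I, hI1, hI2, bad_ind_of_sdiff A B I hI3⟩
  have hPU : 3 / 4 ≤ Pr (e * lam / k) (fun A : Finset (Sym2 V) =>
      Unif (gr A) S (e * lam / k) (1 / lam) ((S.card : ℝ) / rho ^ 3) ((k : ℝ) * rho ^ 4)
        (r / rho ^ 4)) := by
    have e1 := g_u1 ch S (e * lam / k) (1 / lam) ((S.card : ℝ) / rho ^ 3) hpp.le hp1.le hηp.le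
      (by linarith) (by positivity) P.u1
    have e2 := g_u2 ch S (e * lam / k) (1 / lam) ((S.card : ℝ) / rho ^ 3) ((k : ℝ) * rho ^ 4)
      hpp.le hp1.le hηp.le (by linarith) (by positivity) (by positivity) P.u2a P.u2b
    have e3 := g_u3 ch S (e * lam / k) (r / rho ^ 4) (⌊r / rho ^ 4⌋₊ + 1) hpp.le hp1.le
      (by positivity) rfl (P.u3 δ hδe hNt _ (by
        push_cast
        exact (Nat.lt_floor_add_one _).le))
    have hnot := Pr_not (e * lam / k) (fun A : Finset (Sym2 V) =>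
      Unif (gr A) S (e * lam / k) (1 / lam) ((S.card : ℝ) / rho ^ 3) ((k : ℝ) * rho ^ 4)
        (r / rho ^ 4))
    have hle : Pr (e * lam / k) (fun A : Finset (Sym2 V) =>
        ¬ Unif (gr A) S (e * lam / k) (1 / lam) ((S.card : ℝ) / rho ^ 3) ((k : ℝ) * rho ^ 4)
          (r / rho ^ 4)) ≤ 1 / 12 + (1 / 12 + 1 / 12) := by
      refine (Pr_mono hpp.le hp1.le (Q' := fun A : Finset (Sym2 V) =>
        ¬ U1 (gr A) S (e * lam / k) (1 / lam) ((S.card : ℝ) / rho ^ 3) ∨
          (¬ U2 (gr A) S (e * lam / k) (1 / lam) ((S.card : ℝ) / rho ^ 3) ((k : ℝ) * rho ^ 4) ∨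
            ¬ U3 (gr A) S (r / rho ^ 4))) ?_).trans ?_
      · intro A hA
        by_contra hcon
        push Not at hcon
        exact hA ⟨hcon.1, hcon.2.1, hcon.2.2⟩
      · refine (Pr_or_le hpp.le hp1.le _ _).trans (add_le_add e1 ?_)
        exact (Pr_or_le hpp.le hp1.le _ _).trans (add_le_add e2 e3)
    rw [hnot] at hle
    linarith
  have hgood := hPU.trans (Pr_mono hpp.le hp1.le hU)
  have hQ0 := Pr_nonneg hp0.le hp1' (fun A : Finset (Sym2 V) =>
    ¬ ∃ I ⊆ S, I.card = k ∧ Ind (gr A) ∅ I)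
  have hKh : 0 ≤ K ^ h := pow_nonneg hKpos.le h
  have hprod : Pr (e * lam / k / K) (fun A : Finset (Sym2 V) =>
      ¬ ∃ I ⊆ S, I.card = k ∧ Ind (gr A) ∅ I) * (K ^ h * (3 / 4)) ≤ 1 := by
    refine le_trans ?_ hiso
    exact mul_le_mul_of_nonneg_left (mul_le_mul_of_nonneg_left hgood hKh) hQ0
  rw [← mul_assoc] at hprod
  linarith

/-- The probability that some set of `s` vertices has no independent `k`-subset. -/
theorem g_sets {n s k : ℕ} (hn : 1 ≤ n) (p κ L r : ℝ) (hp0 : 0 ≤ p) (hp1 : p ≤ 1)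
    (hL : L = Real.log n) (hL1 : 1 ≤ L) (hr : 1000 ≤ r) (hk : 1 ≤ (k : ℝ))
    (hs : (s : ℝ) = r * k) (hκ : κ = 512 * L / r + 1)
    (hP : ∀ S : Finset (Fin n), S.card = s →
      Pr p (fun A : Finset (Sym2 (Fin n)) => ¬ ∃ I ⊆ S, I.card = k ∧ Ind (gr A) ∅ I) *
        Real.exp κ ^ (s ^ 2 / (256 * k)) ≤ 4 / 3) :
    Pr p (fun A : Finset (Sym2 (Fin n)) => ∃ S ∈ (univ : Finset (Fin n)).powersetCard s,
      ¬ ∃ I ⊆ S, I.card = k ∧ Ind (gr A) ∅ I) ≤ 1 / 4 := by
  have hr0 : 0 < r := by linarith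
  have hκ0 : 0 < κ := by rw [hκ]; positivity
  have hk0 : 0 < k := by
    have : (0 : ℝ) < k := by linarith
    exact_mod_cast this
  have hk' : (0 : ℝ) < k := by linarith
  have hs0 : r ≤ s := by rw [hs]; nlinarith
  -- the exponent
  have hh : (s : ℝ) ^ 2 / (256 * k) - 1 ≤ ((s ^ 2 / (256 * k) : ℕ) : ℝ) := by
    have h1 : s ^ 2 < 256 * k * (s ^ 2 / (256 * k) + 1) := Nat.lt_mul_div_succ _ (by positivity)
    have h2 : ((s ^ 2 : ℕ) : ℝ) < ((256 * k * (s ^ 2 / (256 * k) + 1) : ℕ) : ℝ) := by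
      exact_mod_cast h1
    push_cast at h2
    rw [sub_le_iff_le_add, div_le_iff₀ (by positivity)]
    nlinarith
  have hexp : 2 * s * L + s * r / 256 - κ ≤ ((s ^ 2 / (256 * k) : ℕ) : ℝ) * κ := by
    have h1 : (s : ℝ) ^ 2 / (256 * k) = s * r / 256 := by
      rw [sq, hs]
      field_simp
    rw [h1] at hh
    have h3 : (s * r / 256) * κ = 2 * s * L + s * r / 256 := by
      rw [hκ]
      field_simp
      ring
    have h4 : (s * r / 256 - 1) * κ ≤ ((s ^ 2 / (256 * k) : ℕ) : ℝ) * κ :=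
      mul_le_mul_of_nonneg_right hh hκ0.le
    nlinarith
  refine (Pr_exists_le hp0 hp1 _ _).trans ?_
  have hS : ∀ S ∈ (univ : Finset (Fin n)).powersetCard s,
      Pr p (fun A : Finset (Sym2 (Fin n)) => ¬ ∃ I ⊆ S, I.card = k ∧ Ind (gr A) ∅ I) ≤
        4 / 3 * Real.exp (-(2 * s * L + s * r / 256 - κ)) := by
    intro S hS
    have h1 := hP S (Finset.mem_powersetCard.1 hS).2
    rw [← Real.exp_nat_mul] at h1
    have h2 : 0 ≤ Pr p (fun A : Finset (Sym2 (Fin n)) =>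
        ¬ ∃ I ⊆ S, I.card = k ∧ Ind (gr A) ∅ I) := Pr_nonneg hp0 hp1 _
    have h3 : Real.exp (2 * s * L + s * r / 256 - κ) ≤
        Real.exp (((s ^ 2 / (256 * k) : ℕ) : ℝ) * κ) := Real.exp_le_exp.2 hexp
    rw [Real.exp_neg, ← div_eq_mul_inv, le_div_iff₀ (Real.exp_pos _)]
    exact (mul_le_mul_of_nonneg_left h3 h2).trans h1
  refine (Finset.sum_le_sum hS).trans ?_
  rw [Finset.sum_const, Finset.card_powersetCard, Finset.card_univ, Fintype.card_fin, nsmul_eq_mul]
  have hsL : κ + 2 ≤ s * L + s * r / 256 := by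
    have h1 : 512 * L / r ≤ L := by
      rw [div_le_iff₀ hr0]
      nlinarith
    have h2 : L * 1000 ≤ s * L := by nlinarith
    have h3 : 0 ≤ s * r / 256 := by positivity
    rw [hκ]
    linarith
  calc (n.choose s : ℝ) * (4 / 3 * Real.exp (-(2 * s * L + s * r / 256 - κ)))
      ≤ Real.exp (s * L) * (4 / 3 * Real.exp (-(2 * s * L + s * r / 256 - κ))) := by
        apply mul_le_mul_of_nonneg_right _ (by positivity)
        rw [hL]
        exact up_choose_le hn s
    _ = 4 / 3 * Real.exp (κ - s * L - s * r / 256) := by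
        have : Real.exp (κ - s * L - s * r / 256) =
            Real.exp (s * L) * Real.exp (-(2 * s * L + s * r / 256 - κ)) := by
          rw [← Real.exp_add]
          congr 1
          ring
        rw [this]
        ring
    _ ≤ 4 / 3 * Real.exp (-2) := by
        apply mul_le_mul_of_nonneg_left _ (by norm_num)
        exact Real.exp_le_exp.2 (by linarith)
    _ ≤ 1 / 4 := by
        have := up_exp
        linarith

/-- the upper bound for general set sizes -/
theorem g_up (δ : ℝ) (hδ0 : 0 < δ) (hδ1 : δ ≤ 1 / 2) :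
    ∃ C r₀ : ℝ, 0 < C ∧ 1 < r₀ ∧ ∀ n s t : ℕ, s ≤ n → 1 ≤ t → r₀ * t ≤ s →
      (s : ℝ) ≤ (t : ℝ) ^ (1 / δ) →
      ∃ G : SimpleGraph (Fin n), Loc s t n G ∧ ∀ Q : Finset (Fin n),
        G.IsClique (Q : Set (Fin n)) →
          (Q.card : ℝ) ≤ C * Real.exp (512 * (t * Real.log n / s)) *
            (t * Real.log n / Real.log (s / t)) := by
  obtain ⟨r₀, hr₀, hpar⟩ := par_exists δ hδ0 hδ1
  refine ⟨40 / δ * Real.exp 1 + 3, r₀, by positivity, hr₀, ?_⟩
  intro n s k hsn hk1 hrs hsk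
  have hk1' : (1 : ℝ) ≤ k := by exact_mod_cast hk1
  have P := hpar (s : ℝ) (k : ℝ) hk1' hrs hsk
  obtain ⟨e, he⟩ : ∃ e : ℝ, e = δ / 10 := ⟨_, rfl⟩
  obtain ⟨lam, hlam⟩ : ∃ lam : ℝ, lam = Real.log ((s : ℝ) / k) := ⟨_, rfl⟩
  obtain ⟨rho, hrho⟩ : ∃ rho : ℝ, rho = Real.exp (δ / 10 * Real.log ((s : ℝ) / k)) := ⟨_, rfl⟩
  obtain ⟨r, hr⟩ : ∃ r : ℝ, r = (s : ℝ) / k := ⟨_, rfl⟩
  rw [← hrho, ← hlam, ← hr, ← he] at P
  obtain ⟨L, hL⟩ : ∃ L : ℝ, L = Real.log n := ⟨_, rfl⟩
  rw [← hL, ← hlam]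
  have hrge := P.r_ge
  have htge := P.t_ge
  have hNge := P.N_ge
  have hl4 := P.lam4
  have he0 := P.e0
  have hl0 : 0 < lam := by linarith
  have hr0 : 0 < r := by linarith
  have hs0 : (0 : ℝ) < s := by linarith
  have hk0 : (0 : ℝ) < k := by linarith
  have hsn' : (s : ℝ) ≤ n := by exact_mod_cast hsn
  have hn0 : (0 : ℝ) < n := by linarith
  have hn1 : 1 ≤ n := by exact_mod_cast hn0
  have hrn : r ≤ n := by
    refine le_trans ?_ hsn'
    rw [hr]
    exact div_le_self hs0.le hk1'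
  have hlamL : lam ≤ L := by
    rw [hlam, hL, ← hr]
    exact Real.log_le_log hr0 hrn
  have hL1 : 1 ≤ L := by linarith
  obtain ⟨κ, hκ⟩ : ∃ κ : ℝ, κ = 512 * L / r + 1 := ⟨_, rfl⟩
  have hκ0 : 0 < κ := by rw [hκ]; positivity
  have hK1 : 1 ≤ Real.exp κ := Real.one_le_exp hκ0.le
  obtain ⟨p, hp⟩ : ∃ p : ℝ, p = e * lam / k / Real.exp κ := ⟨_, rfl⟩
  have hpp := P.p_pos
  have hps := P.p_small
  have hp0 : 0 < p := by rw [hp]; positivity
  have hp1 : p ≤ 1 := by
    rw [hp, div_le_one (Real.exp_pos _)]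
    linarith
  -- the first event
  have hbad := g_sets (n := n) (s := s) (k := k) hn1 p κ L r hp0.le hp1 hL hL1 hrge hk1' P.hN hκ
    (by
      intro S hS
      have h3 := g_bad δ hδ0 (e := e) (lam := lam) (rho := rho) (r := r) he S k (Real.exp κ)
        (by rw [hS]; exact P) hK1 (by rw [hS]; exact hsk)
      rw [← hp, hS] at h3
      exact h3)
  -- the second event
  obtain ⟨q, hq⟩ : ∃ q : ℕ, q = ⌈4 * L / p⌉₊ + 2 := ⟨_, rfl⟩
  have hq1 : 4 * L / p + 2 ≤ q := by
    rw [hq]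
    push_cast
    linarith [Nat.le_ceil (4 * L / p)]
  have hq2 : (q : ℝ) ≤ 4 * L / p + 3 := by
    rw [hq]
    push_cast
    linarith [Nat.ceil_lt_add_one (show 0 ≤ 4 * L / p by positivity)]
  have hpq : 2 * L ≤ p * (q - 1) / 2 := by
    have h3 : 4 * L / p ≤ q - 1 := by linarith
    rw [div_le_iff₀ hp0] at h3
    linarith
  have hq0 : (2 : ℝ) ≤ q := by
    have : 0 < 4 * L / p := by positivity
    linarith
  have hind := up_indep ch (n := n) hn1 q p hp0.le hp1
  rw [← hL] at hind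
  have hind2 : Real.exp (q * (L - p * (q - 1) / 2)) ≤ 1 / 4 := by
    have h3 : (q : ℝ) * (L - p * (q - 1) / 2) ≤ -2 := by
      have h4 : (q : ℝ) * (L - p * (q - 1) / 2) ≤ q * (-L) :=
        mul_le_mul_of_nonneg_left (by linarith) (by linarith)
      nlinarith
    have h5 := Real.exp_le_exp.2 h3
    have := up_exp
    linarith
  -- a good graph
  have hor := Pr_or_le (ι := Sym2 (Fin n)) hp0.le hp1
    (fun A => ∃ S ∈ (univ : Finset (Fin n)).powersetCard s,
      ¬ ∃ I ⊆ S, I.card = k ∧ Ind (gr A) ∅ I)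
    (fun A => ∃ I ∈ (univ : Finset (Fin n)).powersetCard q, Ind (gr A) ∅ I)
  obtain ⟨A, hA⟩ : ∃ A : Finset (Sym2 (Fin n)),
      ¬ ((∃ S ∈ (univ : Finset (Fin n)).powersetCard s,
        ¬ ∃ I ⊆ S, I.card = k ∧ Ind (gr A) ∅ I) ∨
        ∃ I ∈ (univ : Finset (Fin n)).powersetCard q, Ind (gr A) ∅ I) := by
    by_contra hcon
    push Not at hcon
    have h3 := Pr_mono (ι := Sym2 (Fin n)) hp0.le hp1 (Q := fun _ => True)
      (Q' := fun A => (∃ S ∈ (univ : Finset (Fin n)).powersetCard s,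
        ¬ ∃ I ⊆ S, I.card = k ∧ Ind (gr A) ∅ I) ∨
        ∃ I ∈ (univ : Finset (Fin n)).powersetCard q, Ind (gr A) ∅ I) (fun A _ => by
          rcases hcon A with h | h
          · left
            obtain ⟨S, hS, h⟩ := h
            exact ⟨S, hS, fun ⟨I, h4, h5, h6⟩ => h I h4 h5 h6⟩
          · right
            exact h)
    rw [Pr_true] at h3
    linarith
  rw [not_or] at hA
  obtain ⟨hA1, hA2⟩ := hA
  refine ⟨(gr A)ᶜ, ?_, ?_⟩
  · intro S hS
    by_contra hcon
    apply hA1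
    refine ⟨S, Finset.mem_powersetCard.2 ⟨Finset.subset_univ _, hS⟩, ?_⟩
    rintro ⟨I, hIS, hIk, hI⟩
    apply hcon
    refine ⟨I, hIS, hIk, ?_⟩
    intro x hx y hy hne
    rw [SimpleGraph.compl_adj]
    exact ⟨hne, (hI x (Finset.mem_coe.1 hx) y (Finset.mem_coe.1 hy) hne).1⟩
  · intro Q hQ
    have hQq : Q.card < q := by
      by_contra hcon
      rw [not_lt] at hcon
      obtain ⟨I, hIQ, hIq⟩ := Finset.exists_subset_card_eq hcon
      apply hA2
      refine ⟨I, Finset.mem_powersetCard.2 ⟨Finset.subset_univ _, hIq⟩, ?_⟩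
      intro x hx y hy hne
      have h3 := hQ (Finset.mem_coe.2 (hIQ hx)) (Finset.mem_coe.2 (hIQ hy)) hne
      rw [SimpleGraph.compl_adj] at h3
      exact ⟨h3.2, Finset.notMem_empty _⟩
    have hQr : (Q.card : ℝ) ≤ q := by exact_mod_cast hQq.le
    have hX : 512 * (k * L / s) = 512 * L / r := by
      rw [hr]
      field_simp
    have hexp : Real.exp κ = Real.exp 1 * Real.exp (512 * (k * L / s)) := by
      rw [hκ, hX, Real.exp_add]
      ring
    have hE1 : 1 ≤ Real.exp (512 * (k * L / s)) := Real.one_le_exp (by positivity)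
    have hdiv : 1 ≤ k * L / lam := by
      rw [le_div_iff₀ hl0]
      nlinarith
    have hp4 : 4 * L / p = 40 / δ * Real.exp 1 * Real.exp (512 * (k * L / s)) * (k * L / lam) := by
      rw [hp, hexp, he]
      have hk0' := hk0.ne'
      have hl0' := hl0.ne'
      have hδ0' := hδ0.ne'
      field_simp
      ring
    have h5 : 3 ≤ 3 * Real.exp (512 * (k * L / s)) * (k * L / lam) := by
      have := mul_le_mul hE1 hdiv (by norm_num) (by linarith)
      linarith
    calc (Q.card : ℝ) ≤ q := hQr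
      _ ≤ 4 * L / p + 3 := hq2
      _ ≤ 40 / δ * Real.exp 1 * Real.exp (512 * (k * L / s)) * (k * L / lam) +
          3 * Real.exp (512 * (k * L / s)) * (k * L / lam) := by
          rw [hp4]
          linarith
      _ = (40 / δ * Real.exp 1 + 3) * Real.exp (512 * (k * L / s)) * (k * L / lam) := by ring

end Pool.Agent.LGD
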