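import Pool.Agent.LGD.Low

set_option autoImplicit false

/-!
# MP_5b54e3_co: general set sizes, widest range
-/

namespace Pool.Agent.LGD

open Finset Pool.Agent.LGC

/-- the probability of a small independence number, widest range -/
def S_WBAD : Prop :=
  ∀ B : ℝ, 0 < B → ∃ c₀ r₀ : ℝ, 0 < c₀ ∧ c₀ ≤ 1 ∧ c₀ * B ≤ 1 ∧ 1 < r₀ ∧
    ∀ (V : Type) [Fintype V] (S : Finset V) (k : ℕ) (K : ℝ), 1 ≤ k → 1 ≤ K →
      r₀ * k ≤ S.card → Real.log (S.card / k) ≤ B * k →
      Pr (c₀ * Real.log (S.card / k) / k / K)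
        (fun A : Finset (Sym2 V) => ¬ ∃ I ⊆ S, I.card = k ∧ Ind (gr A) ∅ I) *
        K ^ (S.card ^ 2 / (256 * k)) ≤ 4 / 3

/-- `C(n, s) ≤ (e n / s)^s` -/
theorem w_choose_le {n s : ℕ} (hs : 1 ≤ s) (hsn : s ≤ n) :
    (n.choose s : ℝ) ≤ Real.exp (s * (1 + Real.log ((n : ℝ) / s))) := by
  have hs0 : (0 : ℝ) < s := by exact_mod_cast hs
  have hn0 : (0 : ℝ) < n := by
    have : (s : ℝ) ≤ n := by exact_mod_cast hsn
    linarith
  have a1 : (n.choose s : ℝ) ≤ (n : ℝ) ^ s / (s.factorial : ℝ) := Nat.choose_le_pow_div s n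
  have a2 : (s : ℝ) ^ s / (s.factorial : ℝ) ≤ Real.exp s :=
    Real.pow_div_factorial_le_exp (s : ℝ) hs0.le s
  have hf : (0 : ℝ) < s.factorial := by exact_mod_cast s.factorial_pos
  have hq : 0 < (n : ℝ) / s := by positivity
  have a3 : Real.exp (s * (1 + Real.log ((n : ℝ) / s))) = Real.exp s * ((n : ℝ) / s) ^ s := by
    rw [mul_add, mul_one, Real.exp_add, Real.exp_nat_mul _ s, Real.exp_log hq]
  rw [a3]
  refine a1.trans ?_
  calc (n : ℝ) ^ s / (s.factorial : ℝ) = (s : ℝ) ^ s / (s.factorial : ℝ) * ((n : ℝ) / s) ^ s := by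
        rw [div_pow]
        field_simp
    _ ≤ Real.exp s * ((n : ℝ) / s) ^ s := mul_le_mul_of_nonneg_right a2 (by positivity)

/-- The probability that some set of `s` vertices has no independent `k`-subset. -/
theorem w_sets {n s k : ℕ} (p κ Λ r : ℝ) (hp0 : 0 ≤ p) (hp1 : p ≤ 1) (hsn : s ≤ n)
    (hΛ : Λ = Real.log ((n : ℝ) / s)) (hr : 1000 ≤ r) (hk : 1 ≤ (k : ℝ))
    (hs : (s : ℝ) = r * k) (hκ : κ = 512 * (1 + Λ) / r + 1)
    (hP : ∀ S : Finset (Fin n), S.card = s →
      Pr p (fun A : Finset (Sym2 (Fin n)) => ¬ ∃ I ⊆ S, I.card = k ∧ Ind (gr A) ∅ I) *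
        Real.exp κ ^ (s ^ 2 / (256 * k)) ≤ 4 / 3) :
    Pr p (fun A : Finset (Sym2 (Fin n)) => ∃ S ∈ (univ : Finset (Fin n)).powersetCard s,
      ¬ ∃ I ⊆ S, I.card = k ∧ Ind (gr A) ∅ I) ≤ 1 / 4 := by
  have hr0 : 0 < r := by linarith
  have hk' : (0 : ℝ) < k := by linarith
  have hs0 : r ≤ s := by rw [hs]; nlinarith
  have hs1 : (0 : ℝ) < s := by linarith
  have hs1n : 1 ≤ s := by exact_mod_cast hs1
  have hsn' : (s : ℝ) ≤ n := by exact_mod_cast hsn
  have hΛ0 : 0 ≤ Λ := by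
    rw [hΛ]
    apply Real.log_nonneg
    rw [le_div_iff₀ hs1]
    linarith
  have hκ0 : 0 < κ := by rw [hκ]; positivity
  have hk0 : 0 < k := by exact_mod_cast hk'
  -- the exponent
  have hh : (s : ℝ) ^ 2 / (256 * k) - 1 ≤ ((s ^ 2 / (256 * k) : ℕ) : ℝ) := by
    have h1 : s ^ 2 < 256 * k * (s ^ 2 / (256 * k) + 1) := Nat.lt_mul_div_succ _ (by positivity)
    have h2 : ((s ^ 2 : ℕ) : ℝ) < ((256 * k * (s ^ 2 / (256 * k) + 1) : ℕ) : ℝ) := by
      exact_mod_cast h1
    push_cast at h2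
    rw [sub_le_iff_le_add, div_le_iff₀ (by positivity)]
    nlinarith
  have hexp : 2 * s * (1 + Λ) + s * r / 256 - κ ≤ ((s ^ 2 / (256 * k) : ℕ) : ℝ) * κ := by
    have h1 : (s : ℝ) ^ 2 / (256 * k) = s * r / 256 := by
      rw [sq, hs]
      field_simp
    rw [h1] at hh
    have h3 : (s * r / 256) * κ = 2 * s * (1 + Λ) + s * r / 256 := by
      rw [hκ]
      field_simp
      ring
    have h4 : (s * r / 256 - 1) * κ ≤ ((s ^ 2 / (256 * k) : ℕ) : ℝ) * κ :=
      mul_le_mul_of_nonneg_right hh hκ0.le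
    nlinarith
  refine (Pr_exists_le hp0 hp1 _ _).trans ?_
  have hS : ∀ S ∈ (univ : Finset (Fin n)).powersetCard s,
      Pr p (fun A : Finset (Sym2 (Fin n)) => ¬ ∃ I ⊆ S, I.card = k ∧ Ind (gr A) ∅ I) ≤
        4 / 3 * Real.exp (-(2 * s * (1 + Λ) + s * r / 256 - κ)) := by
    intro S hS
    have h1 := hP S (Finset.mem_powersetCard.1 hS).2
    rw [← Real.exp_nat_mul] at h1
    have h2 : 0 ≤ Pr p (fun A : Finset (Sym2 (Fin n)) =>
        ¬ ∃ I ⊆ S, I.card = k ∧ Ind (gr A) ∅ I) := Pr_nonneg hp0 hp1 _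
    have h3 : Real.exp (2 * s * (1 + Λ) + s * r / 256 - κ) ≤
        Real.exp (((s ^ 2 / (256 * k) : ℕ) : ℝ) * κ) := Real.exp_le_exp.2 hexp
    rw [Real.exp_neg, ← div_eq_mul_inv, le_div_iff₀ (Real.exp_pos _)]
    exact (mul_le_mul_of_nonneg_left h3 h2).trans h1
  refine (Finset.sum_le_sum hS).trans ?_
  rw [Finset.sum_const, Finset.card_powersetCard, Finset.card_univ, Fintype.card_fin, nsmul_eq_mul]
  have hsL : κ + 2 ≤ s * (1 + Λ) + s * r / 256 := by
    have h1 : 512 * (1 + Λ) / r ≤ 1 + Λ := by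
      rw [div_le_iff₀ hr0]
      nlinarith
    have h2 : 1000 * (1 + Λ) ≤ s * (1 + Λ) :=
      mul_le_mul_of_nonneg_right (by linarith) (by linarith)
    have h3 : 0 ≤ s * r / 256 := by positivity
    rw [hκ]
    linarith
  have hch := w_choose_le hs1n hsn
  rw [← hΛ] at hch
  calc (n.choose s : ℝ) * (4 / 3 * Real.exp (-(2 * s * (1 + Λ) + s * r / 256 - κ)))
      ≤ Real.exp (s * (1 + Λ)) * (4 / 3 * Real.exp (-(2 * s * (1 + Λ) + s * r / 256 - κ))) :=
        mul_le_mul_of_nonneg_right hch (by positivity)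
    _ = 4 / 3 * Real.exp (κ - s * (1 + Λ) - s * r / 256) := by
        have : Real.exp (κ - s * (1 + Λ) - s * r / 256) =
            Real.exp (s * (1 + Λ)) * Real.exp (-(2 * s * (1 + Λ) + s * r / 256 - κ)) := by
          rw [← Real.exp_add]
          congr 1
          ring
        rw [this]
        ring
    _ ≤ 4 / 3 * Real.exp (-2) := by
        apply mul_le_mul_of_nonneg_left _ (by norm_num)
        exact Real.exp_le_exp.2 (by linarith)
    _ ≤ 1 / 4 := by
        have := up_exp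
        linarith

/-- large independent sets -/
theorem w_indep {n : ℕ} (q : ℕ) (p M : ℝ) (hp0 : 0 ≤ p) (hp1 : p ≤ 1) (hq1 : 1 ≤ q)
    (hqn : q ≤ n) (hM : Real.log ((n : ℝ) / q) ≤ M) :
    Pr p (fun A : Finset (Sym2 (Fin n)) =>
      ∃ I ∈ (univ : Finset (Fin n)).powersetCard q, Ind (gr A) ∅ I) ≤
      Real.exp (q * (1 + M - p * (q - 1) / 2)) := by
  refine (Pr_exists_le hp0 hp1 _ _).trans ?_
  have hI : ∀ I ∈ (univ : Finset (Fin n)).powersetCard q,
      Pr p (fun A : Finset (Sym2 (Fin n)) => Ind (gr A) ∅ I) ≤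
        Real.exp (-(q * (p * (q - 1) / 2))) := by
    intro I hI
    rw [Finset.mem_powersetCard] at hI
    refine (Pr_mono hp0 hp1 (fun A hA => up_ind_disj A I hA)).trans ?_
    rw [(ch (Sym2 (Fin n)) p hp0 hp1).2.1, Sym2.card_image_offDiag, hI.2]
    calc (1 - p) ^ (q.choose 2) ≤ (Real.exp (-p)) ^ (q.choose 2) :=
          pow_le_pow_left₀ (by linarith) (Real.one_sub_le_exp_neg p) _
      _ = Real.exp (-(q * (p * (q - 1) / 2))) := by
          rw [← Real.exp_nat_mul, Nat.cast_choose_two]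
          congr 1
          ring
  refine (Finset.sum_le_sum hI).trans ?_
  rw [Finset.sum_const, Finset.card_powersetCard, Finset.card_univ, Fintype.card_fin, nsmul_eq_mul]
  have h1 : (n.choose q : ℝ) ≤ Real.exp (q * (1 + M)) := by
    refine (w_choose_le hq1 hqn).trans (Real.exp_le_exp.2 ?_)
    apply mul_le_mul_of_nonneg_left _ (Nat.cast_nonneg q)
    linarith
  calc (n.choose q : ℝ) * Real.exp (-(q * (p * (q - 1) / 2)))
      ≤ Real.exp (q * (1 + M)) * Real.exp (-(q * (p * (q - 1) / 2))) :=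
        mul_le_mul_of_nonneg_right h1 (Real.exp_pos _).le
    _ = Real.exp (q * (1 + M - p * (q - 1) / 2)) := by
        rw [← Real.exp_add]
        congr 1
        ring

/-- the final computation -/
theorem w_num (c₀ lam k M κ X p : ℝ) (hc0 : 0 < c₀) (hlam0 : 0 < lam) (hk0 : 0 < k)
    (hM1 : 1 ≤ M) (hp : p = c₀ * lam / k / Real.exp κ) (hexp : Real.exp κ ≤ Real.exp 2 * X)
    (hX : 1 ≤ X) (hdiv : 1 ≤ k * M / lam) :
    4 * (1 + M) / p + 3 ≤ (8 / c₀ * Real.exp 2 + 3) * X * (k * M / lam) := by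
  have hM0 : 0 < M := by linarith
  have h1 : 4 * (1 + M) / p = 4 * (1 + M) * k / (c₀ * lam) * Real.exp κ := by
    rw [hp]
    field_simp
  have h2 : 4 * (1 + M) * k / (c₀ * lam) ≤ 8 / c₀ * (k * M / lam) := by
    have h3 : 8 / c₀ * (k * M / lam) = 8 * M * k / (c₀ * lam) := by
      field_simp
    rw [h3]
    apply div_le_div_of_nonneg_right _ (by positivity)
    exact mul_le_mul_of_nonneg_right (by linarith) hk0.le
  have h4 : 4 * (1 + M) * k / (c₀ * lam) * Real.exp κ ≤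
      8 / c₀ * (k * M / lam) * (Real.exp 2 * X) :=
    mul_le_mul h2 hexp (Real.exp_pos _).le (by positivity)
  have h5 : 1 ≤ X * (k * M / lam) := by
    have := mul_le_mul hX hdiv (by norm_num) (by linarith)
    linarith
  have h6 : (8 / c₀ * Real.exp 2 + 3) * X * (k * M / lam) =
      8 / c₀ * (k * M / lam) * (Real.exp 2 * X) + 3 * (X * (k * M / lam)) := by ring
  rw [h1, h6]
  linarith

/-- the upper bound -/
theorem w_up (hbad : S_WBAD) (B : ℝ) (hB : 0 < B) :
    ∃ C r₀ : ℝ, 0 < C ∧ 1 < r₀ ∧ ∀ n s t : ℕ, s ≤ n → 1 ≤ t → r₀ * t ≤ s →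
      Real.log (s / t) ≤ B * t →
      ∃ G : SimpleGraph (Fin n), Loc s t n G ∧ ∀ Q : Finset (Fin n),
        G.IsClique (Q : Set (Fin n)) →
          (Q.card : ℝ) ≤ C * Real.exp (512 * (t * Real.log (n / s) / s)) *
            (t * Real.log (n / t) / Real.log (s / t)) := by
  obtain ⟨c₀, r₁, hc0, hc1, hcB, hr₁, hP⟩ := hbad B hB
  refine ⟨8 / c₀ * Real.exp 2 + 3, max r₁ 1000, by positivity,
    lt_of_lt_of_le hr₁ (le_max_left _ _), ?_⟩
  intro n s k hsn hk1 hrs hsk
  have hk1' : (1 : ℝ) ≤ k := by exact_mod_cast hk1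
  have hk0 : (0 : ℝ) < k := by linarith
  obtain ⟨r, hr⟩ : ∃ r : ℝ, r = (s : ℝ) / k := ⟨_, rfl⟩
  obtain ⟨lam, hlam⟩ : ∃ lam : ℝ, lam = Real.log ((s : ℝ) / k) := ⟨_, rfl⟩
  obtain ⟨Λ, hΛ⟩ : ∃ Λ : ℝ, Λ = Real.log ((n : ℝ) / s) := ⟨_, rfl⟩
  obtain ⟨M, hM⟩ : ∃ M : ℝ, M = Real.log ((n : ℝ) / k) := ⟨_, rfl⟩
  rw [← hΛ, ← hM, ← hlam]
  have hr1 : r₁ ≤ r := by
    rw [hr, le_div_iff₀ hk0]
    refine le_trans ?_ hrs
    exact mul_le_mul_of_nonneg_right (le_max_left _ _) hk0.le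
  have hr1000 : 1000 ≤ r := by
    rw [hr, le_div_iff₀ hk0]
    refine le_trans ?_ hrs
    exact mul_le_mul_of_nonneg_right (le_max_right _ _) hk0.le
  have hr0 : 0 < r := by linarith
  have hsr : (s : ℝ) = r * k := by
    rw [hr]
    field_simp
  have hs1000 : 1000 ≤ (s : ℝ) := by
    rw [hsr]
    nlinarith
  have hs0 : (0 : ℝ) < s := by linarith
  have hsn' : (s : ℝ) ≤ n := by exact_mod_cast hsn
  have hn0 : (0 : ℝ) < n := by linarith
  have hlam1 : 1 ≤ lam := by
    rw [hlam, ← hr, Real.le_log_iff_exp_le hr0]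
    have := Real.exp_one_lt_d9
    linarith
  have hlam0 : 0 < lam := by linarith
  have hΛ0 : 0 ≤ Λ := by
    rw [hΛ]
    apply Real.log_nonneg
    rw [le_div_iff₀ hs0]
    linarith
  have hMΛ : M = Λ + lam := by
    rw [hM, hΛ, hlam, Real.log_div hn0.ne' hk0.ne', Real.log_div hn0.ne' hs0.ne',
      Real.log_div hs0.ne' hk0.ne']
    ring
  have hM1 : 1 ≤ M := by linarith
  have hM0 : 0 < M := by linarith
  obtain ⟨κ, hκ⟩ : ∃ κ : ℝ, κ = 512 * (1 + Λ) / r + 1 := ⟨_, rfl⟩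
  have hκ0 : 0 < κ := by rw [hκ]; positivity
  have hK1 : 1 ≤ Real.exp κ := Real.one_le_exp hκ0.le
  obtain ⟨p, hp⟩ : ∃ p : ℝ, p = c₀ * lam / k / Real.exp κ := ⟨_, rfl⟩
  have hpp : 0 < c₀ * lam / k := by positivity
  have hpp1 : c₀ * lam / k ≤ 1 := by
    rw [div_le_one hk0]
    rw [← hlam] at hsk
    have h1 : c₀ * lam ≤ c₀ * (B * k) := mul_le_mul_of_nonneg_left hsk hc0.le
    have h2 : c₀ * B * k ≤ 1 * k := mul_le_mul_of_nonneg_right hcB hk0.le
    linarith
  have hp0 : 0 < p := by rw [hp]; positivity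
  have hp1 : p ≤ 1 := by
    rw [hp, div_le_one (Real.exp_pos _)]
    linarith
  -- the first event
  have hev1 := w_sets (n := n) (s := s) (k := k) p κ Λ r hp0.le hp1 hsn hΛ hr1000 hk1' hsr hκ
    (by
      intro S hS
      have h3 := hP (Fin n) S k (Real.exp κ) hk1 hK1
        (by rw [hS]; exact le_trans (mul_le_mul_of_nonneg_right (le_max_left _ _) hk0.le) hrs)
        (by rw [hS]; exact hsk)
      rw [hS, ← hlam, ← hp] at h3
      exact h3)
  -- the second event
  obtain ⟨q, hq⟩ : ∃ q : ℕ, q = ⌈4 * (1 + M) / p⌉₊ + 2 := ⟨_, rfl⟩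
  have hq1 : 4 * (1 + M) / p + 2 ≤ q := by
    rw [hq]
    push_cast
    linarith [Nat.le_ceil (4 * (1 + M) / p)]
  have hq2 : (q : ℝ) ≤ 4 * (1 + M) / p + 3 := by
    rw [hq]
    push_cast
    linarith [Nat.ceil_lt_add_one (show 0 ≤ 4 * (1 + M) / p by positivity)]
  have hpq : 2 * (1 + M) ≤ p * (q - 1) / 2 := by
    have h3 : 4 * (1 + M) / p ≤ q - 1 := by linarith
    rw [div_le_iff₀ hp0] at h3
    linarith
  have hqk : (k : ℝ) ≤ q := by
    refine le_trans ?_ hq1
    have h1 : (k : ℝ) ≤ 4 * (1 + M) / p := by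
      rw [le_div_iff₀ hp0]
      have h2 : p ≤ c₀ * lam / k := by
        rw [hp]
        exact div_le_self hpp.le hK1
      have h3 : k * p ≤ k * (c₀ * lam / k) := mul_le_mul_of_nonneg_left h2 hk0.le
      have h4 : k * (c₀ * lam / k) = c₀ * lam := by field_simp
      have h5 : c₀ * lam ≤ 1 * lam := mul_le_mul_of_nonneg_right hc1 hlam0.le
      linarith
    linarith
  have hq0 : (2 : ℝ) ≤ q := by
    have : 0 < 4 * (1 + M) / p := by positivity
    linarith
  have hqnat : 1 ≤ q := by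
    have : (1 : ℝ) ≤ q := by linarith
    exact_mod_cast this
  have hind : Pr p (fun A : Finset (Sym2 (Fin n)) =>
      ∃ I ∈ (univ : Finset (Fin n)).powersetCard q, Ind (gr A) ∅ I) ≤ 1 / 4 := by
    rcases le_or_gt q n with hqn | hqn
    · have h1 := w_indep (n := n) q p M hp0.le hp1 hqnat hqn (by
        rw [hM]
        apply Real.log_le_log (by positivity)
        exact div_le_div_of_nonneg_left hn0.le hk0 hqk)
      refine h1.trans ?_
      have h3 : (q : ℝ) * (1 + M - p * (q - 1) / 2) ≤ -2 := by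
        have h4 : (q : ℝ) * (1 + M - p * (q - 1) / 2) ≤ q * (-(1 + M)) :=
          mul_le_mul_of_nonneg_left (by linarith) (by linarith)
        nlinarith
      have h5 := Real.exp_le_exp.2 h3
      have := up_exp
      linarith
    · have h1 : ∀ A : Finset (Sym2 (Fin n)),
          ¬ ∃ I ∈ (univ : Finset (Fin n)).powersetCard q, Ind (gr A) ∅ I := by
        rintro A ⟨I, hI, -⟩
        rw [Finset.mem_powersetCard] at hI
        have := Finset.card_le_univ I
        rw [Fintype.card_fin, hI.2] at this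
        omega
      have h2 := Pr_mono (ι := Sym2 (Fin n)) hp0.le hp1
        (Q := fun A => ∃ I ∈ (univ : Finset (Fin n)).powersetCard q, Ind (gr A) ∅ I)
        (Q' := fun _ => False) (fun A hA => h1 A hA)
      have h3 : Pr p (fun _ : Finset (Sym2 (Fin n)) => False) = 0 := by
        unfold Pr
        simp
      linarith
  -- a good graph
  have hor := Pr_or_le (ι := Sym2 (Fin n)) hp0.le hp1
    (fun A => ∃ S ∈ (univ : Finset (Fin n)).powersetCard s,
      ¬ ∃ I ⊆ S, I.card = k ∧ Ind (gr A) ∅ I)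
    (fun A => ∃ I ∈ (univ : Finset (Fin n)).powersetCard q, Ind (gr A) ∅ I)
  obtain ⟨A, hA⟩ : ∃ A : Finset (Sym2 (Fin n)),
      ¬ ((∃ S ∈ (univ : Finset (Fin n)).powersetCard s,
        ¬ ∃ I ⊆ S, I.card = k ∧ Ind (gr A) ∅ I) ∨
        ∃ I ∈ (univ : Finset (Fin n)).powersetCard q, Ind (gr A) ∅ I) := by
    by_contra hcon
    push Not at hcon
    have h3 := Pr_mono (ι := Sym2 (Fin n)) hp0.le hp1 (Q := fun _ => True)
      (Q' := fun A => (∃ S ∈ (univ : Finset (Fin n)).powersetCard s,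
        ¬ ∃ I ⊆ S, I.card = k ∧ Ind (gr A) ∅ I) ∨
        ∃ I ∈ (univ : Finset (Fin n)).powersetCard q, Ind (gr A) ∅ I) (fun A _ => by
          rcases hcon A with h | h
          · left
            obtain ⟨S, hS, h⟩ := h
            exact ⟨S, hS, fun ⟨I, h4, h5, h6⟩ => h I h4 h5 h6⟩
          · right
            exact h)
    rw [Pr_true] at h3
    linarith
  rw [not_or] at hA
  obtain ⟨hA1, hA2⟩ := hA
  refine ⟨(gr A)ᶜ, ?_, ?_⟩
  · intro S hS
    by_contra hcon
    apply hA1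
    refine ⟨S, Finset.mem_powersetCard.2 ⟨Finset.subset_univ _, hS⟩, ?_⟩
    rintro ⟨I, hIS, hIk, hI⟩
    apply hcon
    refine ⟨I, hIS, hIk, ?_⟩
    intro x hx y hy hne
    rw [SimpleGraph.compl_adj]
    exact ⟨hne, (hI x (Finset.mem_coe.1 hx) y (Finset.mem_coe.1 hy) hne).1⟩
  · intro Q hQ
    have hQq : Q.card < q := by
      by_contra hcon
      rw [not_lt] at hcon
      obtain ⟨I, hIQ, hIq⟩ := Finset.exists_subset_card_eq hcon
      apply hA2
      refine ⟨I, Finset.mem_powersetCard.2 ⟨Finset.subset_univ _, hIq⟩, ?_⟩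
      intro x hx y hy hne
      have h3 := hQ (Finset.mem_coe.2 (hIQ hx)) (Finset.mem_coe.2 (hIQ hy)) hne
      rw [SimpleGraph.compl_adj] at h3
      exact ⟨h3.2, Finset.notMem_empty _⟩
    have hQr : (Q.card : ℝ) ≤ q := by exact_mod_cast hQq.le
    have hX : 512 * (k * Λ / s) = 512 * Λ / r := by
      rw [hr]
      field_simp
    have hexp : Real.exp κ ≤ Real.exp 2 * Real.exp (512 * (k * Λ / s)) := by
      rw [hX, ← Real.exp_add]
      apply Real.exp_le_exp.2
      rw [hκ]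
      have h1 : 512 * (1 + Λ) / r = 512 / r + 512 * Λ / r := by ring
      have h2 : 512 / r ≤ 1 := by
        rw [div_le_one hr0]
        linarith
      rw [h1]
      linarith
    have hE1 : 1 ≤ Real.exp (512 * (k * Λ / s)) := Real.one_le_exp (by positivity)
    have hdiv : 1 ≤ k * M / lam := by
      rw [le_div_iff₀ hlam0]
      nlinarith
    have hfin := w_num c₀ lam k M κ (Real.exp (512 * (k * Λ / s))) p hc0 hlam0 hk0 hM1 hp hexp
      hE1 hdiv
    exact hQr.trans (hq2.trans hfin)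

/-- the trivial bound -/
theorem w_low0 (n s t : ℕ) (hsn : s ≤ n) (G : SimpleGraph (Fin n)) (hG : Loc s t n G) :
    ∃ Q : Finset (Fin n), G.IsClique (Q : Set (Fin n)) ∧ t ≤ Q.card := by
  have hsn' : s ≤ (univ : Finset (Fin n)).card := by
    rw [card_univ, Fintype.card_fin]
    exact hsn
  obtain ⟨S, -, hSc⟩ := exists_subset_card_eq hsn'
  obtain ⟨T, -, hTc, hTcl⟩ := hG S hSc
  exact ⟨T, hTcl, hTc.ge⟩

/-- the first lower bound -/
theorem w_low1 (n s t : ℕ) (ht : 2 ≤ t) (hts : 3 * (t : ℝ) ≤ s)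
    (hsn : s ≤ n) (G : SimpleGraph (Fin n)) (hG : Loc s t n G) :
    ∃ Q : Finset (Fin n), G.IsClique (Q : Set (Fin n)) ∧
      1 / 24 * (t * Real.log (n / t) / Real.log (s / t)) ≤ (Q.card : ℝ) := by
  have ht2 : (2 : ℝ) ≤ t := by exact_mod_cast ht
  have ht0 : (0 : ℝ) < t := by linarith
  have hs0 : (0 : ℝ) < s := by linarith
  have hsn' : (s : ℝ) ≤ n := by exact_mod_cast hsn
  have hn0 : (0 : ℝ) < n := by linarith
  have hts' : t ≤ s := by
    have : (t : ℝ) ≤ s := by linarith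
    exact_mod_cast this
  obtain ⟨Λ, hΛ⟩ : ∃ Λ : ℝ, Λ = Real.log ((n : ℝ) / s) := ⟨_, rfl⟩
  obtain ⟨lam, hlam'⟩ : ∃ lam : ℝ, lam = Real.log ((s : ℝ) / t) := ⟨_, rfl⟩
  have hΛ0 : 0 ≤ Λ := by
    rw [hΛ]
    apply Real.log_nonneg
    rw [le_div_iff₀ hs0]
    linarith
  have hr3 : 3 ≤ (s : ℝ) / t := by
    rw [le_div_iff₀ ht0]
    exact hts
  have hlam : 0 < lam := by
    rw [hlam']
    exact Real.log_pos (by linarith)
  have hMΛ : Real.log ((n : ℝ) / t) = Λ + lam := by
    rw [hΛ, hlam', Real.log_div hn0.ne' ht0.ne', Real.log_div hn0.ne' hs0.ne',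
      Real.log_div hs0.ne' ht0.ne']
    ring
  rw [hMΛ, ← hlam']
  obtain ⟨R, hR⟩ : ∃ R : ℝ, R = (3 * s / t : ℝ) ^ 2 := ⟨_, rfl⟩
  have hR3 : 3 * s / t = 3 * ((s : ℝ) / t) := by ring
  have hR1 : 1 < R := by
    rw [hR, hR3]
    nlinarith
  have hlogR : 0 < Real.log R := Real.log_pos hR1
  have hlogR2 : Real.log R ≤ 4 * lam := by
    have h1 : R ≤ ((s : ℝ) / t) ^ 4 := by
      rw [hR, hR3]
      have : 3 * ((s : ℝ) / t) ≤ ((s : ℝ) / t) ^ 2 := by nlinarith
      calc (3 * ((s : ℝ) / t)) ^ 2 ≤ (((s : ℝ) / t) ^ 2) ^ 2 :=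
            pow_le_pow_left₀ (by positivity) this 2
        _ = ((s : ℝ) / t) ^ 4 := by ring
    have h2 := Real.log_le_log (by linarith) h1
    rw [Real.log_pow, ← hlam'] at h2
    exact_mod_cast h2
  obtain ⟨m, hm⟩ : ∃ m : ℕ, m = ⌊Λ / Real.log R⌋₊ := ⟨_, rfl⟩
  have hmle : (m : ℝ) * Real.log R ≤ Λ := by
    have := Nat.floor_le (show 0 ≤ Λ / Real.log R by positivity)
    rwa [le_div_iff₀ hlogR, ← hm] at this
  have hmge : Λ / Real.log R < m + 1 := by
    rw [hm]
    exact Nat.lt_floor_add_one _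
  have hcard : (s : ℝ) * R ^ m ≤ ((univ : Finset (Fin n)).card : ℝ) := by
    rw [Finset.card_univ, Fintype.card_fin]
    have hpos : 0 < (s : ℝ) * R ^ m := by positivity
    rw [← Real.log_le_log_iff hpos hn0, Real.log_mul hs0.ne' (by positivity), Real.log_pow]
    rw [hΛ, Real.log_div hn0.ne' hs0.ne'] at hmle
    linarith
  obtain ⟨Q1, -, hQ1, hcl1⟩ := low_iter low1 (Fin n) G s t R (by omega) hts' hR1.le
    (by rw [hR]; exact low_num s t (by omega) hts') hG m univ hcard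
  obtain ⟨Q0, hcl0, hQ0⟩ := w_low0 n s t hsn G hG
  obtain ⟨Q, hQ, hmax⟩ := max_clique G
  refine ⟨Q, hQ, ?_⟩
  have e0 : (t : ℝ) ≤ Q.card := by exact_mod_cast hQ0.trans (hmax Q0 hcl0)
  have e1 : ((m : ℝ) + 1) * ((t / 2 : ℕ) : ℝ) ≤ Q.card := by
    exact_mod_cast hQ1.trans (hmax Q1 hcl1)
  have ht4 : (t : ℝ) / 3 ≤ ((t / 2 : ℕ) : ℝ) := by
    have h1 : (t : ℝ) ≤ 3 * ((t / 2 : ℕ) : ℝ) := by
      have : t ≤ 3 * (t / 2) := by omega
      exact_mod_cast this
    linarith
  have hm2 : Λ / (4 * lam) ≤ (m : ℝ) + 1 := by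
    refine le_trans ?_ hmge.le
    exact div_le_div_of_nonneg_left hΛ0 hlogR hlogR2
  have e2 : Λ / (4 * lam) * (t / 3) ≤ Q.card :=
    (mul_le_mul hm2 ht4 (by positivity) (by positivity)).trans e1
  have e3 : 1 / 24 * (t * (Λ + lam) / lam) = 1 / 2 * (Λ / (4 * lam) * (t / 3)) + 1 / 24 * t := by
    field_simp
    ring
  rw [e3]
  linarith

/-- the second lower bound -/
theorem w_low2 (n s t : ℕ) (ht : 2 ≤ t) (hts : 64 * (t : ℝ) ≤ s)
    (hsn : s ≤ n) (G : SimpleGraph (Fin n)) (hG : Loc s t n G) :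
    ∃ Q : Finset (Fin n), G.IsClique (Q : Set (Fin n)) ∧
      Real.exp (1 / 12 * (t * Real.log n / s)) ≤ (Q.card : ℝ) := by
  obtain ⟨L, hL⟩ : ∃ L : ℝ, L = Real.log n := ⟨_, rfl⟩
  rw [← hL]
  have ht2 : (2 : ℝ) ≤ t := by exact_mod_cast ht
  have ht0 : (0 : ℝ) < t := by linarith
  have hs0 : (0 : ℝ) < s := by linarith
  have hsn' : (s : ℝ) ≤ n := by exact_mod_cast hsn
  have hn128 : (128 : ℝ) ≤ n := by linarith
  have hn0 : (0 : ℝ) < n := by linarith
  have hL0 : 0 < L := by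
    rw [hL]
    exact Real.log_pos (by linarith)
  obtain ⟨Q0, hcl0, hQ0⟩ := w_low0 n s t hsn G hG
  obtain ⟨Q, hQ, hmax⟩ := max_clique G
  refine ⟨Q, hQ, ?_⟩
  have hQt : (t : ℝ) ≤ Q.card := by exact_mod_cast hQ0.trans (hmax Q0 hcl0)
  have hst64 : 64 ≤ (s : ℝ) / t := by
    rw [le_div_iff₀ ht0]
    exact hts
  have htL : t * L / s = L / (s / t) := by field_simp
  rcases le_or_gt (4 * (s : ℝ)) n with hs4 | hs4
  · -- small `s`
    have hQ2' : (2 : ℝ) ≤ Q.card := by linarith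
    obtain ⟨q, hq⟩ : ∃ q : ℕ, q = Q.card + 1 := ⟨_, rfl⟩
    have hqr : (q : ℝ) = Q.card + 1 := by rw [hq]; push_cast; ring
    have hq1 : 1 < (q : ℝ) := by linarith
    have hlq : 0 < Real.log q := Real.log_pos hq1
    have hlq2 : Real.log 2 ≤ Real.log q := Real.log_le_log (by norm_num) (by linarith)
    obtain ⟨m, hm⟩ : ∃ m : ℕ, m = ⌊L / 2 / Real.log q⌋₊ := ⟨_, rfl⟩
    have hmle : (m : ℝ) * Real.log q ≤ L / 2 := by
      have := Nat.floor_le (show 0 ≤ L / 2 / Real.log q by positivity)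
      rwa [le_div_iff₀ hlq, ← hm] at this
    have hmge : L / 2 / Real.log q < m + 1 := by
      rw [hm]
      exact Nat.lt_floor_add_one _
    -- the bound on `m`
    have hmr : (m : ℝ) ≤ 2 * (s / t) := by
      rcases Nat.eq_zero_or_pos m with h0 | h0
      · rw [h0]
        push_cast
        positivity
      have hqm : (q : ℝ) ^ m ≤ n / 4 := by
        have h1 : (q : ℝ) ^ m ≤ Real.exp (L / 2) := by
          have h2 : (q : ℝ) ^ m = Real.exp (m * Real.log q) := by
            rw [Real.exp_nat_mul, Real.exp_log (by linarith)]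
          rw [h2]
          exact Real.exp_le_exp.2 hmle
        have h3 : Real.exp (L / 2) * Real.exp (L / 2) = n := by
          rw [← Real.exp_add, hL, add_halves, Real.exp_log hn0]
        have h4 : 0 < Real.exp (L / 2) := Real.exp_pos _
        have h5 : 4 ≤ Real.exp (L / 2) := by
          by_contra hcon
          push Not at hcon
          nlinarith
        nlinarith
      have hmn : (m : ℝ) ≤ n / 4 := by
        have h1 : (0.69 : ℝ) ≤ Real.log 2 := by
          have := Real.log_two_gt_d9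
          linarith
        have h2 : (m : ℝ) * 0.69 ≤ L / 2 := by
          have h3 : (0 : ℝ) ≤ m := Nat.cast_nonneg m
          nlinarith
        have h4 : L ≤ n / 4 := by
          have h5 : Real.log ((n : ℝ) / 16) ≤ (n : ℝ) / 16 - 1 :=
            Real.log_le_sub_one_of_pos (by positivity)
          have h6 : Real.log ((n : ℝ) / 16) = L - Real.log 16 := by
            rw [Real.log_div hn0.ne' (by norm_num), hL]
          have h7 : Real.log 16 ≤ 4 := by
            rw [Real.log_le_iff_le_exp (by norm_num)]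
            have h8 : Real.exp 4 = Real.exp 1 ^ 4 := by
              rw [← Real.exp_nat_mul]
              norm_num
            rw [h8]
            have h9 : (2 : ℝ) ^ 4 ≤ Real.exp 1 ^ 4 :=
              pow_le_pow_left₀ (by norm_num) (by linarith [Real.add_one_le_exp (1 : ℝ)]) 4
            norm_num at h9
            linarith
          rw [h6] at h5
          linarith
        linarith
      have hsum : s + m + q ^ m ≤ n := by
        have : (s : ℝ) + m + (q : ℝ) ^ m ≤ n := by linarith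
        exact_mod_cast this
      have hcore := low2_core G hG (by omega) h0 (fun T hT => by
        have := hmax T hT
        omega) hsum
      have hcore' : (t : ℝ) * m ≤ s + m := by exact_mod_cast hcore
      rw [mul_div_assoc', le_div_iff₀ ht0]
      have h1 : (0 : ℝ) ≤ m := Nat.cast_nonneg m
      nlinarith
    have hfin : L / 2 / Real.log q < 3 * (s / t) := by linarith
    rw [div_lt_iff₀ hlq] at hfin
    have hfin2 : 1 / 6 * (t * L / s) ≤ Real.log q := by
      rw [htL, mul_div_assoc', div_le_iff₀ (by positivity)]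
      nlinarith
    have hfin3 : Real.exp (1 / 6 * (t * L / s)) ≤ q := by
      rw [← Real.le_log_iff_exp_le (by linarith)]
      exact hfin2
    have hsq : Real.exp (1 / 12 * (t * L / s)) ^ 2 = Real.exp (1 / 6 * (t * L / s)) := by
      rw [← Real.exp_nat_mul]
      congr 1
      push_cast
      ring
    have h1 : 0 < Real.exp (1 / 12 * (t * L / s)) := Real.exp_pos _
    by_contra hcon
    push Not at hcon
    rw [← hsq] at hfin3
    nlinarith
  · -- large `s`
    refine le_trans ?_ hQt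
    have hlogt : Real.log 2 ≤ Real.log t := Real.log_le_log (by norm_num) ht2
    have hlog2 : (0.69 : ℝ) ≤ Real.log 2 := by
      have := Real.log_two_gt_d9
      linarith
    rw [← Real.le_log_iff_exp_le ht0]
    have h1 : L ≤ Real.log (4 * (s / t)) + Real.log t := by
      rw [← Real.log_mul (by positivity) ht0.ne', hL]
      apply Real.log_le_log hn0
      have : 4 * ((s : ℝ) / t) * t = 4 * s := by field_simp
      rw [this]
      exact hs4.le
    have h2 : Real.log (4 * (s / t)) ≤ 4 * (s / t) := by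
      have := Real.log_le_sub_one_of_pos (show 0 < 4 * ((s : ℝ) / t) by positivity)
      linarith
    rw [htL, mul_div_assoc', div_le_iff₀ (by positivity)]
    nlinarith

/-- the widest range -/
theorem w_general (hbad : S_WBAD) (B : ℝ) (hB : 0 < B) :
    ∃ c C r₀ : ℝ, 0 < c ∧ 0 < C ∧ 1 < r₀ ∧ ∀ n s t : ℕ, s ≤ n → 1 ≤ t →
      r₀ * t ≤ s → Real.log (s / t) ≤ B * t →
      (∀ G : SimpleGraph (Fin n), Loc s t n G → ∃ Q : Finset (Fin n),
        G.IsClique (Q : Set (Fin n)) ∧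
          max (c * (t * Real.log (n / t) / Real.log (s / t))) ((n : ℝ) ^ (c * (t / s))) ≤
            (Q.card : ℝ)) ∧
      (∃ G : SimpleGraph (Fin n), Loc s t n G ∧ ∀ Q : Finset (Fin n),
        G.IsClique (Q : Set (Fin n)) →
          (Q.card : ℝ) ≤ C * ((n : ℝ) / s) ^ (C * (t / s)) *
            (t * Real.log (n / t) / Real.log (s / t))) := by
  obtain ⟨C, r₁, hC, hr₁, hup⟩ := w_up hbad B hB
  have hEB := Real.exp_pos B
  refine ⟨1 / 24, C + 512, r₁ + 64 + Real.exp B, by norm_num, by linarith, by linarith, ?_⟩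
  intro n s t hsn ht hrs hst
  have ht1 : (1 : ℝ) ≤ t := by exact_mod_cast ht
  have ht0 : (0 : ℝ) < t := by linarith
  have hs64 : 64 * (t : ℝ) ≤ s := by
    refine le_trans ?_ hrs
    exact mul_le_mul_of_nonneg_right (by linarith) ht0.le
  have hs1 : r₁ * (t : ℝ) ≤ s := by
    refine le_trans ?_ hrs
    exact mul_le_mul_of_nonneg_right (by linarith) ht0.le
  have hs0 : (0 : ℝ) < s := by linarith
  have hsn' : (s : ℝ) ≤ n := by exact_mod_cast hsn
  have hn0 : (0 : ℝ) < n := by linarith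
  have ht2 : 2 ≤ t := by
    by_contra hcon
    have h1 : t = 1 := by omega
    rw [h1] at hst hrs
    push_cast at hst hrs
    rw [div_one, mul_one, Real.log_le_iff_le_exp hs0] at hst
    linarith
  have hns : 1 ≤ (n : ℝ) / s := by
    rw [le_div_iff₀ hs0]
    linarith
  have hΛ0 : 0 ≤ Real.log ((n : ℝ) / s) := Real.log_nonneg hns
  have hr64 : 64 ≤ (s : ℝ) / t := by
    rw [le_div_iff₀ ht0]
    exact hs64
  have hlam : 0 < Real.log ((s : ℝ) / t) := Real.log_pos (by linarith)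
  have hnt : 0 ≤ Real.log ((n : ℝ) / t) := by
    apply Real.log_nonneg
    rw [le_div_iff₀ ht0]
    linarith
  constructor
  · intro G hG
    obtain ⟨Q, hQ, hmax⟩ := max_clique G
    obtain ⟨Q1, hQ1, h1⟩ := w_low1 n s t ht2 (by linarith) hsn G hG
    obtain ⟨Q2, hQ2, h2⟩ := w_low2 n s t ht2 hs64 hsn G hG
    have e1 : (Q1.card : ℝ) ≤ Q.card := by exact_mod_cast hmax Q1 hQ1
    have e2 : (Q2.card : ℝ) ≤ Q.card := by exact_mod_cast hmax Q2 hQ2
    refine ⟨Q, hQ, max_le (h1.trans e1) ?_⟩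
    refine le_trans ?_ (h2.trans e2)
    rw [Real.rpow_def_of_pos hn0]
    apply Real.exp_le_exp.2
    have h3 : 0 ≤ t * Real.log n / s := by
      have : 0 ≤ Real.log n := Real.log_nonneg (by linarith)
      positivity
    have h4 : Real.log n * (1 / 24 * (t / s)) = 1 / 24 * (t * Real.log n / s) := by ring
    rw [h4]
    linarith
  · obtain ⟨G, hG, hQ⟩ := hup n s t hsn ht hs1 hst
    refine ⟨G, hG, fun Q hcl => (hQ Q hcl).trans ?_⟩
    have hX : 0 ≤ t * Real.log ((n : ℝ) / s) / s := by positivity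
    have h1 : Real.exp (512 * (t * Real.log (n / s) / s)) ≤
        ((n : ℝ) / s) ^ ((C + 512) * (t / s)) := by
      rw [Real.rpow_def_of_pos (by positivity)]
      apply Real.exp_le_exp.2
      have h4 : Real.log ((n : ℝ) / s) * ((C + 512) * (t / s)) =
          (C + 512) * (t * Real.log ((n : ℝ) / s) / s) := by ring
      rw [h4]
      exact mul_le_mul_of_nonneg_right (by linarith) hX
    have h2 : 0 ≤ t * Real.log ((n : ℝ) / t) / Real.log (s / t) := by positivity
    apply mul_le_mul_of_nonneg_right _ h2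
    exact mul_le_mul (by linarith) h1 (Real.exp_pos _).le (by linarith)

end Pool.Agent.LGD
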